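import Mathlib

set_option autoImplicit false

namespace Pool.Agent.helper96.Rotor

/-- north exits of a layer around the box `[0,w) × [0,h)` -/
def cN (w h x y : ℤ) : ℕ :=
  if y < 0 then (if -w ≤ y ∧ 0 ≤ x ∧ x ≤ w + y then 2 else if -w - 1 ≤ y ∧ x = w + y + 1 then 1 else 0)
  else if y < h then (if 0 ≤ x ∧ x < w then 2 else if x = w then 1 else 0)
  else (if y < h + w ∧ 0 ≤ x ∧ x < w - 1 - (y - h) then 2
    else if x = w ∧ y < h + w then 1 else 0)

/-- east exits -/
def cE (w h x y : ℤ) : ℕ :=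
  if y < 0 then (if -w - 1 ≤ y ∧ -1 ≤ x ∧ x ≤ w + y then 1 else 0)
  else if y < h then (if -1 ≤ x ∧ x < w then 1 else 0)
  else if y < h + w then (if -1 ≤ x ∧ x < w + 1 + (y - h) then 1 else 0)
  else (if y = h + w ∧ w ≤ x ∧ x < 2 * w + 1 then 1 else 0)

/-- south exits -/
def cS (w h x y : ℤ) : ℕ :=
  if y < 0 then (if (-w ≤ y ∧ 0 ≤ x ∧ x < w + y) ∨ (x ≤ 2 * w + 1 ∧ w + 1 - x ≤ y) then 1 else 0)
  else if y < h then (if 0 ≤ x ∧ x ≤ 2 * w + 1 ∧ x ≠ w then 1 else 0)
  else (if (y < h + w ∧ 0 ≤ x ∧ x ≤ w - 1 - (y - h)) ∨ (x ≤ 2 * w + 1 ∧ y ≤ h + x - w - 1)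
    then 1 else 0)

/-- west exits -/
def cW (w h x y : ℤ) : ℕ :=
  if y < 0 then (if -w - 1 ≤ y ∧ 0 ≤ x ∧ x ≤ w - y then 1 else 0)
  else if y < h then (if 0 ≤ x ∧ x ≤ w then 1 else 0)
  else (if y < h + w ∧ 0 ≤ x ∧ x ≤ w - 1 - (y - h) then 1 else 0)

set_option maxHeartbeats 4000000 in
lemma template_balance_bot (w h x y : ℤ) (hw : 1 ≤ w) (hy : y < -1) :
    cN w h x y + cE w h x y + cS w h x y + cW w h x y
      = cN w h x (y - 1) + cE w h (x - 1) y + cS w h x (y + 1) + cW w h (x + 1) y := by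
  have h1 : y < 0 := by omega
  have h2 : y - 1 < 0 := by omega
  have h3 : y + 1 < 0 := by omega
  simp only [cN, cE, cS, cW, if_pos h1, if_pos h2, if_pos h3]
  split_ifs <;> omega

set_option maxHeartbeats 4000000 in
lemma template_balance_m1 (w h x y : ℤ) (hw : 1 ≤ w) (hh : 1 ≤ h) (hy : y = -1) :
    cN w h x y + cE w h x y + cS w h x y + cW w h x y
      = cN w h x (y - 1) + cE w h (x - 1) y + cS w h x (y + 1) + cW w h (x + 1) y := by
  have h1 : y < 0 := by omega
  have h2 : y - 1 < 0 := by omega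
  have h3 : ¬ (y + 1 < 0) := by omega
  have h4 : y + 1 < h := by omega
  simp only [cN, cE, cS, cW, if_pos h1, if_pos h2, if_neg h3, if_pos h4]
  split_ifs <;> omega

set_option maxHeartbeats 4000000 in
lemma template_balance_mid (w h x y : ℤ) (hw : 1 ≤ w) (hy : 0 < y) (hy' : y + 1 < h) :
    cN w h x y + cE w h x y + cS w h x y + cW w h x y
      = cN w h x (y - 1) + cE w h (x - 1) y + cS w h x (y + 1) + cW w h (x + 1) y := by
  have h1 : ¬ (y < 0) := by omega
  have h2 : ¬ (y - 1 < 0) := by omega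
  have h3 : ¬ (y + 1 < 0) := by omega
  have h4 : y < h := by omega
  have h5 : y - 1 < h := by omega
  simp only [cN, cE, cS, cW, if_neg h1, if_neg h2, if_neg h3, if_pos h4, if_pos h5, if_pos hy']
  split_ifs <;> omega

set_option maxHeartbeats 4000000 in
lemma template_balance_zero_mid (w h x y : ℤ) (hw : 1 ≤ w) (hy : y = 0) (hy' : y + 1 < h) :
    cN w h x y + cE w h x y + cS w h x y + cW w h x y
      = cN w h x (y - 1) + cE w h (x - 1) y + cS w h x (y + 1) + cW w h (x + 1) y := by
  have h1 : ¬ (y < 0) := by omega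
  have h2 : (y - 1 < 0) := by omega
  have h3 : ¬ (y + 1 < 0) := by omega
  have h4 : y < h := by omega
  simp only [cN, cE, cS, cW, if_neg h1, if_pos h2, if_neg h3, if_pos h4, if_pos hy']
  split_ifs <;> omega

set_option maxHeartbeats 4000000 in
lemma template_balance_zero_top (w h x y : ℤ) (hw : 1 ≤ w) (hy : y = 0) (hy' : h = 1) :
    cN w h x y + cE w h x y + cS w h x y + cW w h x y
      = cN w h x (y - 1) + cE w h (x - 1) y + cS w h x (y + 1) + cW w h (x + 1) y := by
  have h1 : ¬ (y < 0) := by omega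
  have h2 : (y - 1 < 0) := by omega
  have h3 : ¬ (y + 1 < 0) := by omega
  have h4 : y < h := by omega
  have h5 : ¬ (y + 1 < h) := by omega
  simp only [cN, cE, cS, cW, if_neg h1, if_pos h2, if_neg h3, if_pos h4, if_neg h5]
  split_ifs <;> omega

set_option maxHeartbeats 4000000 in
lemma template_balance_pre_top (w h x y : ℤ) (hw : 1 ≤ w) (hy : 0 < y) (hy' : y + 1 = h) :
    cN w h x y + cE w h x y + cS w h x y + cW w h x y
      = cN w h x (y - 1) + cE w h (x - 1) y + cS w h x (y + 1) + cW w h (x + 1) y := by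
  have h1 : ¬ (y < 0) := by omega
  have h2 : ¬ (y - 1 < 0) := by omega
  have h3 : ¬ (y + 1 < 0) := by omega
  have h4 : y < h := by omega
  have h5 : y - 1 < h := by omega
  have h6 : ¬ (y + 1 < h) := by omega
  simp only [cN, cE, cS, cW, if_neg h1, if_neg h2, if_neg h3, if_pos h4, if_pos h5, if_neg h6]
  split_ifs <;> omega

set_option maxHeartbeats 4000000 in
lemma template_balance_first_top (w h x y : ℤ) (hw : 1 ≤ w) (hh : 1 ≤ h) (hy : y = h) :
    cN w h x y + cE w h x y + cS w h x y + cW w h x y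
      = cN w h x (y - 1) + cE w h (x - 1) y + cS w h x (y + 1) + cW w h (x + 1) y := by
  have h1 : ¬ (y < 0) := by omega
  have h2 : ¬ (y - 1 < 0) := by omega
  have h3 : ¬ (y + 1 < 0) := by omega
  have h4 : ¬ (y < h) := by omega
  have h5 : y - 1 < h := by omega
  have h6 : ¬ (y + 1 < h) := by omega
  have h7 : y < h + w := by omega
  simp only [cN, cE, cS, cW, if_neg h1, if_neg h2, if_neg h3, if_neg h4, if_pos h5, if_neg h6,
    if_pos h7]
  split_ifs <;> omega

set_option maxHeartbeats 4000000 in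
lemma template_balance_top (w h x y : ℤ) (hw : 1 ≤ w) (hh : 1 ≤ h) (hy : h < y)
    (hy' : y < h + w) :
    cN w h x y + cE w h x y + cS w h x y + cW w h x y
      = cN w h x (y - 1) + cE w h (x - 1) y + cS w h x (y + 1) + cW w h (x + 1) y := by
  have h1 : ¬ (y < 0) := by omega
  have h2 : ¬ (y - 1 < 0) := by omega
  have h3 : ¬ (y + 1 < 0) := by omega
  have h4 : ¬ (y < h) := by omega
  have h5 : ¬ (y - 1 < h) := by omega
  have h6 : ¬ (y + 1 < h) := by omega
  simp only [cN, cE, cS, cW, if_neg h1, if_neg h2, if_neg h3, if_neg h4, if_neg h5, if_neg h6,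
    if_pos hy']
  split_ifs <;> omega

set_option maxHeartbeats 4000000 in
lemma template_balance_above (w h x y : ℤ) (hw : 1 ≤ w) (hh : 1 ≤ h) (hy' : h + w ≤ y) :
    cN w h x y + cE w h x y + cS w h x y + cW w h x y
      = cN w h x (y - 1) + cE w h (x - 1) y + cS w h x (y + 1) + cW w h (x + 1) y := by
  have h1 : ¬ (y < 0) := by omega
  have h2 : ¬ (y - 1 < 0) := by omega
  have h3 : ¬ (y + 1 < 0) := by omega
  have h4 : ¬ (y < h) := by omega
  have h5 : ¬ (y - 1 < h) := by omega
  have h6 : ¬ (y + 1 < h) := by omega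
  have h7 : ¬ (y < h + w) := by omega
  simp only [cN, cE, cS, cW, if_neg h1, if_neg h2, if_neg h3, if_neg h4, if_neg h5, if_neg h6,
    if_neg h7]
  split_ifs <;> omega

lemma template_balance (w h x y : ℤ) (hw : 1 ≤ w) (hh : 1 ≤ h) :
    cN w h x y + cE w h x y + cS w h x y + cW w h x y
      = cN w h x (y - 1) + cE w h (x - 1) y + cS w h x (y + 1) + cW w h (x + 1) y := by
  rcases lt_trichotomy y (-1) with hy | hy | hy
  · exact template_balance_bot w h x y hw hy
  · exact template_balance_m1 w h x y hw hh hy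
  rcases lt_or_ge y h with hyh | hyh
  · rcases eq_or_ne y 0 with hy0 | hy0
    · rcases eq_or_ne h 1 with h1 | h1
      · exact template_balance_zero_top w h x y hw hy0 h1
      · exact template_balance_zero_mid w h x y hw hy0 (by omega)
    · rcases eq_or_ne (y + 1) h with h1 | h1
      · exact template_balance_pre_top w h x y hw (by omega) h1
      · exact template_balance_mid w h x y hw (by omega) (by omega)
  · rcases eq_or_ne y h with hy0 | hy0
    · exact template_balance_first_top w h x y hw hh hy0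
    · rcases lt_or_ge y (h + w) with h1 | h1
      · exact template_balance_top w h x y hw hh (by omega) h1
      · exact template_balance_above w h x y hw hh h1

end Pool.Agent.helper96.Rotor
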