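import Pool.Agent.helper96.RotorBasic
import Pool.Agent.helper96.RotorTemplate

set_option autoImplicit false

namespace Pool.Agent.helper96.Rotor

/-- The rotors in the annulus around the box `[0,w) × [0,h)`. The first exit of a vertex with
rotor `a` has index `a + 1`. -/
def T (w h x y : ℤ) : Fin 5 :=
  if x = -1 then 1
  else if y < 0 then (if x ≤ w - y then 3 else 2)
  else if y < h then (if x = w then 3 else 2)
  else if x = w then (if y < h + w then 0 else 1)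
  else if x < w + 1 + (y - h) then 1 else 2

/-- total number of visits in a layer -/
def vt (w h x y : ℤ) : ℕ := cN w h x y + cE w h x y + cS w h x y + cW w h x y

/-- the admissible local patterns -/
def Good (a : Fin 5) (n e s w : ℕ) : Prop :=
  (n = 0 ∧ e = 0 ∧ s = 0 ∧ w = 0) ∨ (n = 2 ∧ e = 1 ∧ s = 1 ∧ w = 1) ∨
  (n = 2 ∧ e = 1 ∧ s = 0 ∧ w = 1 ∧ a = 3) ∨ (n = 1 ∧ e = 0 ∧ s = 0 ∧ w = 1 ∧ a = 3) ∨
  (n = 0 ∧ e = 0 ∧ s = 0 ∧ w = 1 ∧ a = 3) ∨ (n = 0 ∧ e = 0 ∧ s = 1 ∧ w = 0 ∧ a = 2) ∨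
  (n = 0 ∧ e = 1 ∧ s = 0 ∧ w = 0 ∧ a = 1) ∨ (n = 0 ∧ e = 1 ∧ s = 1 ∧ w = 1 ∧ a = 1) ∨
  (n = 1 ∧ e = 1 ∧ s = 0 ∧ w = 0 ∧ a = 0)

instance (a : Fin 5) (n e s w : ℕ) : Decidable (Good a n e s w) := by unfold Good; infer_instance

lemma good_cnt {a : Fin 5} {n e s w : ℕ} (h : Good a n e s w) :
    cnt a (n + e + s + w) 0 + cnt a (n + e + s + w) 1 = n ∧
    cnt a (n + e + s + w) 2 = e ∧ cnt a (n + e + s + w) 3 = s ∧ cnt a (n + e + s + w) 4 = w := by
  rcases h with h | h | h | h | h | h | h | h | h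
  · obtain ⟨rfl, rfl, rfl, rfl⟩ := h
    simp [cnt_zero]
  · obtain ⟨rfl, rfl, rfl, rfl⟩ := h
    have : 2 + 1 + 1 + 1 = 5 := rfl
    rw [this]
    simp [cnt_five]
  all_goals
    obtain ⟨rfl, rfl, rfl, rfl, rfl⟩ := h
    simp only [cnt, Finset.sum_range_succ, Finset.sum_range_zero]
    decide

set_option maxHeartbeats 4000000 in
lemma good_template_bot (w h x y : ℤ) (hw : 1 ≤ w) (hy : y < 0) (hy' : -w - 1 ≤ y)
    (hx : -1 ≤ x) (hx' : x ≤ 2 * w + 1) :
    Good (T w h x y) (cN w h x y) (cE w h x y) (cS w h x y) (cW w h x y) := by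
  simp only [T, cN, cE, cS, cW, if_pos hy]
  split_ifs <;> first | decide | (exfalso; omega)

set_option maxHeartbeats 4000000 in
lemma good_template_mid (w h x y : ℤ) (hw : 1 ≤ w) (hy : ¬ y < 0) (hy' : y < h)
    (hx : -1 ≤ x) (hx' : x ≤ 2 * w + 1) :
    Good (T w h x y) (cN w h x y) (cE w h x y) (cS w h x y) (cW w h x y) := by
  simp only [T, cN, cE, cS, cW, if_neg hy, if_pos hy']
  split_ifs <;> first | decide | (exfalso; omega)

set_option maxHeartbeats 4000000 in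
lemma good_template_top (w h x y : ℤ) (hw : 1 ≤ w) (hy : ¬ y < 0) (hy' : ¬ y < h)
    (hy2 : y ≤ h + w) (hx : -1 ≤ x) (hx' : x ≤ 2 * w + 1) :
    Good (T w h x y) (cN w h x y) (cE w h x y) (cS w h x y) (cW w h x y) := by
  simp only [T, cN, cE, cS, cW, if_neg hy, if_neg hy']
  split_ifs <;> first | decide | (exfalso; omega)

lemma good_template (w h x y : ℤ) (hw : 1 ≤ w) (hx : -1 ≤ x) (hx' : x ≤ 2 * w + 1)
    (hy : -w - 1 ≤ y) (hy' : y ≤ h + w) :
    Good (T w h x y) (cN w h x y) (cE w h x y) (cS w h x y) (cW w h x y) := by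
  by_cases h1 : y < 0
  · exact good_template_bot w h x y hw h1 hy hx hx'
  · by_cases h2 : y < h
    · exact good_template_mid w h x y hw h1 h2 hx hx'
    · exact good_template_top w h x y hw h1 h2 hy' hx hx'

/-- Inside the box every vertex is visited five times. -/
lemma inside_box (w h x y : ℤ) (hx : 0 ≤ x) (hx' : x < w) (hy : 0 ≤ y) (hy' : y < h) :
    cN w h x y = 2 ∧ cE w h x y = 1 ∧ cS w h x y = 1 ∧ cW w h x y = 1 := by
  have h1 : ¬ y < 0 := by omega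
  simp only [cN, cE, cS, cW, if_neg h1, if_pos hy']
  refine ⟨?_, ?_, ?_, ?_⟩ <;> rw [if_pos] <;> omega

/-- Outside the larger box there are no visits. -/
lemma outside_box (w h x y : ℤ) (hw : 1 ≤ w) (hh : 1 ≤ h)
    (hout : ¬ (-1 ≤ x ∧ x ≤ 2 * w + 1 ∧ -w - 1 ≤ y ∧ y ≤ h + w)) :
    cN w h x y = 0 ∧ cE w h x y = 0 ∧ cS w h x y = 0 ∧ cW w h x y = 0 := by
  simp only [cN, cE, cS, cW]
  refine ⟨?_, ?_, ?_, ?_⟩ <;> split_ifs <;> omega

/-- width of the `k`-th box -/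
def Wd : ℕ → ℤ
  | 0 => 1
  | k + 1 => 2 * Wd k + 3

/-- half-height of the `k`-th box -/
def Bd : ℕ → ℤ
  | 0 => 0
  | k + 1 => Bd k + Wd k + 1

lemma Wd_pos (k : ℕ) : 1 ≤ Wd k := by
  induction k with
  | zero => simp [Wd]
  | succ k ih => simp only [Wd]; omega

lemma Wd_ge (k : ℕ) : 2 * (k : ℤ) + 1 ≤ Wd k := by
  induction k with
  | zero => simp [Wd]
  | succ k ih => simp only [Wd]; push_cast; omega

lemma Bd_ge (k : ℕ) : (k : ℤ) ≤ Bd k := by
  induction k with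
  | zero => simp [Bd]
  | succ k ih => have := Wd_pos k; simp only [Bd]; push_cast; omega

/-- the `k`-th box -/
def Box (k : ℕ) (z : ℤ × ℤ) : Prop :=
  -(k : ℤ) ≤ z.1 ∧ z.1 < -(k : ℤ) + Wd k ∧ -Bd k ≤ z.2 ∧ z.2 ≤ Bd k

instance (k : ℕ) (z : ℤ × ℤ) : Decidable (Box k z) := by unfold Box; infer_instance

lemma Box_mono_succ (k : ℕ) (z : ℤ × ℤ) (h : Box k z) : Box (k + 1) z := by
  have := Wd_pos k
  unfold Box at *
  simp only [Wd, Bd]
  push_cast
  omega

lemma Box_mono {k l : ℕ} (hkl : k ≤ l) {z : ℤ × ℤ} (h : Box k z) : Box l z := by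
  induction hkl with
  | refl => exact h
  | step _ ih => exact Box_mono_succ _ _ ih

lemma exists_Box (z : ℤ × ℤ) : ∃ k, Box k z := by
  refine ⟨(|z.1| + |z.2|).toNat, ?_⟩
  have h1 := Wd_ge (|z.1| + |z.2|).toNat
  have h2 := Bd_ge (|z.1| + |z.2|).toNat
  have h3 : (((|z.1| + |z.2|).toNat : ℕ) : ℤ) = |z.1| + |z.2| :=
    Int.toNat_of_nonneg (by positivity)
  rw [h3] at h1 h2
  unfold Box
  rw [h3]
  have a1 := neg_abs_le z.1
  have a2 := le_abs_self z.1
  have a3 := neg_abs_le z.2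
  have a4 := le_abs_self z.2
  have a5 := abs_nonneg z.1
  have a6 := abs_nonneg z.2
  omega

lemma Box_zero (k : ℕ) : Box k (0, 0) := by
  have h1 := Wd_ge k
  have h2 := Bd_ge k
  unfold Box
  simp only
  omega

/-- layer counts in absolute coordinates -/
def lN (k : ℕ) (z : ℤ × ℤ) : ℕ := cN (Wd k) (2 * Bd k + 1) (z.1 + k) (z.2 + Bd k)
def lE (k : ℕ) (z : ℤ × ℤ) : ℕ := cE (Wd k) (2 * Bd k + 1) (z.1 + k) (z.2 + Bd k)
def lS (k : ℕ) (z : ℤ × ℤ) : ℕ := cS (Wd k) (2 * Bd k + 1) (z.1 + k) (z.2 + Bd k)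
def lW (k : ℕ) (z : ℤ × ℤ) : ℕ := cW (Wd k) (2 * Bd k + 1) (z.1 + k) (z.2 + Bd k)

/-- the `k`-th layer -/
def lay (k : ℕ) (z : ℤ × ℤ) : ℕ := lN k z + lE k z + lS k z + lW k z

/-- the recurrent rotor configuration -/
def rho (z : ℤ × ℤ) : Fin 5 :=
  T (Wd (Nat.find (exists_Box z) - 1)) (2 * Bd (Nat.find (exists_Box z) - 1) + 1)
    (z.1 + ((Nat.find (exists_Box z) - 1 : ℕ) : ℤ)) (z.2 + Bd (Nat.find (exists_Box z) - 1))

lemma lay_inside {k : ℕ} {z : ℤ × ℤ} (h : Box k z) :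
    lN k z = 2 ∧ lE k z = 1 ∧ lS k z = 1 ∧ lW k z = 1 := by
  unfold Box at h
  apply inside_box <;> omega

lemma lay_outside {k : ℕ} {z : ℤ × ℤ} (h : ¬ Box (k + 1) z) :
    lN k z = 0 ∧ lE k z = 0 ∧ lS k z = 0 ∧ lW k z = 0 := by
  have h0 := Wd_pos k
  have h1 := Bd_ge k
  unfold Box at h
  simp only [Wd, Bd] at h
  push_cast at h
  apply outside_box
  · exact h0
  · omega
  · omega

lemma lay_good (k : ℕ) (z : ℤ × ℤ) : Good (rho z) (lN k z) (lE k z) (lS k z) (lW k z) := by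
  by_cases h1 : Box k z
  · right; left; exact lay_inside h1
  by_cases h2 : Box (k + 1) z
  · have hk : Nat.find (exists_Box z) = k + 1 := by
      rw [Nat.find_eq_iff]
      exact ⟨h2, fun n hn hb => h1 (Box_mono (by omega) hb)⟩
    have hr : rho z = T (Wd k) (2 * Bd k + 1) (z.1 + k) (z.2 + Bd k) := by
      unfold rho
      rw [hk]
      simp
    rw [hr]
    have h0 := Wd_pos k
    unfold Box at h2
    simp only [Wd, Bd] at h2
    push_cast at h2
    apply good_template <;> omega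
  · left; exact lay_outside h2

lemma lay_cnt (k : ℕ) (z : ℤ × ℤ) :
    cnt (rho z) (lay k z) 0 + cnt (rho z) (lay k z) 1 = lN k z ∧
    cnt (rho z) (lay k z) 2 = lE k z ∧ cnt (rho z) (lay k z) 3 = lS k z ∧
    cnt (rho z) (lay k z) 4 = lW k z := good_cnt (lay_good k z)

/-- Every layer is balanced. -/
lemma lay_balance (k : ℕ) (z : ℤ × ℤ) :
    ∑ d : Fin 5, cnt (rho (z - dir d)) (lay k (z - dir d)) d = lay k z := by
  rw [Fin.sum_univ_five]
  have e0 : dir 0 = (0, 1) := rfl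
  have e1 : dir 1 = (0, 1) := rfl
  have e2 : dir 2 = (1, 0) := rfl
  have e3 : dir 3 = (0, -1) := rfl
  have e4 : dir 4 = (-1, 0) := rfl
  rw [e0, e1, e2, e3, e4, (lay_cnt k _).1, (lay_cnt k _).2.1, (lay_cnt k _).2.2.1,
    (lay_cnt k _).2.2.2]
  unfold lay lN lE lS lW
  have h0 := Bd_ge k
  have hb := template_balance (Wd k) (2 * Bd k + 1) (z.1 + k) (z.2 + Bd k) (Wd_pos k) (by omega)
  rw [hb]
  have a1 : (z - (0, 1)).1 + (k : ℤ) = z.1 + k := by simp
  have a2 : (z - (0, 1)).2 + Bd k = z.2 + Bd k - 1 := by simp; ring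
  have a3 : (z - (1, 0)).1 + (k : ℤ) = z.1 + k - 1 := by simp; ring
  have a4 : (z - (1, 0)).2 + Bd k = z.2 + Bd k := by simp
  have a5 : (z - (0, -1)).1 + (k : ℤ) = z.1 + k := by simp
  have a6 : (z - (0, -1)).2 + Bd k = z.2 + Bd k + 1 := by simp; ring
  have a7 : (z - (-1, 0)).1 + (k : ℤ) = z.1 + k + 1 := by simp; ring
  have a8 : (z - (-1, 0)).2 + Bd k = z.2 + Bd k := by simp
  rw [a1, a2, a3, a4, a5, a6, a7, a8]

/-- sum of the first `m` layers -/
def um (m : ℕ) (z : ℤ × ℤ) : ℕ := ∑ k ∈ Finset.range m, lay k z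

lemma um_succ (m : ℕ) (z : ℤ × ℤ) : um (m + 1) z = um m z + lay m z := by
  simp [um, Finset.sum_range_succ]

lemma lay_eq_five {k : ℕ} {z : ℤ × ℤ} (h : Box k z) : lay k z = 5 := by
  obtain ⟨h1, h2, h3, h4⟩ := lay_inside h
  unfold lay; omega

lemma lay_eq_zero {k : ℕ} {z : ℤ × ℤ} (h : ¬ Box (k + 1) z) : lay k z = 0 := by
  obtain ⟨h1, h2, h3, h4⟩ := lay_outside h
  unfold lay; omega

lemma um_eq_zero {m : ℕ} {z : ℤ × ℤ} (h : ¬ Box m z) : um m z = 0 := by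
  unfold um
  apply Finset.sum_eq_zero
  intro k hk
  apply lay_eq_zero
  intro hb
  exact h (Box_mono (by have := Finset.mem_range.1 hk; omega) hb)

lemma cnt_um_succ (m : ℕ) (z : ℤ × ℤ) (d : Fin 5) :
    cnt (rho z) (um (m + 1) z) d = cnt (rho z) (um m z) d + cnt (rho z) (lay m z) d := by
  rw [um_succ]
  by_cases h : Box m z
  · rw [lay_eq_five h, cnt_add_five, cnt_five]
  · rw [um_eq_zero h, zero_add, cnt_zero, zero_add]

lemma um_balance (m : ℕ) (z : ℤ × ℤ) :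
    ∑ d : Fin 5, cnt (rho (z - dir d)) (um m (z - dir d)) d = um m z := by
  induction m with
  | zero => simp [um, cnt_zero]
  | succ m ih =>
    rw [Finset.sum_congr rfl (fun d _ => cnt_um_succ m (z - dir d) d), Finset.sum_add_distrib, ih,
      lay_balance, um_succ]

theorem rho_infinite : Set.Infinite {n : ℕ | pos rho n = (0, 0)} := by
  apply infinite_visits
  intro m
  refine ⟨um m, (Finset.Icc (-(m : ℤ)) (-(m : ℤ) + Wd m)) ×ˢ (Finset.Icc (-Bd m) (Bd m)),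
    ?_, ?_, ?_⟩
  · intro z hz
    apply um_eq_zero
    intro hb
    apply hz
    unfold Box at hb
    rw [Finset.mem_product, Finset.mem_Icc, Finset.mem_Icc]
    omega
  · intro z _
    exact le_of_eq (um_balance m z)
  · unfold um
    have : ∀ k ∈ Finset.range m, lay k (0, 0) = 5 := fun k _ => lay_eq_five (Box_zero k)
    rw [Finset.sum_congr rfl this]
    simp
    omega

end Pool.Agent.helper96.Rotor
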