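import Pool.Agent.helper80.RSV.Base

/-!
# RSV-C: finitely generated virtually soluble groups with ZP and ExpP are residually finite
-/

namespace Pool.Agent.helper80.RSV

open Function
open scoped commutatorElement

namespace RsvC

/-- join of the abelian normal subgroups -/
def cA (Y : Type*) [Group Y] : Subgroup Y := sSup {N | N.Normal ∧ AbSub N}

theorem cA_normal (Y : Type*) [Group Y] : (cA Y).Normal :=
  Subgroup.sSup_normal _ (fun _ h => h.1)

theorem le_cA {Y : Type*} [Group Y] {N : Subgroup Y} (h : N.Normal) (h' : AbSub N) : N ≤ cA Y :=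
  le_sSup ⟨h, h'⟩

theorem eq_of_comm_one {Y : Type*} [Group Y] {a b : Y} (h : ⁅a, b⁆ = 1) : a * b = b * a :=
  commutatorElement_eq_one_iff_mul_comm.1 h

theorem commute_of {Y : Type*} [Group Y] (hZ : ZP Y) {A B : Subgroup Y} (hA : A.Normal)
    (hB : B.Normal) (hAa : AbSub A) (hBa : AbSub B) : ∀ a ∈ A, ∀ b ∈ B, a * b = b * a := by
  intro a ha b hb
  apply eq_of_comm_one
  have hcA : ⁅a, b⁆ ∈ A := by
    rw [commutatorElement_def]
    have h1 : a * b * a⁻¹ * b⁻¹ = a * (b * a⁻¹ * b⁻¹) := by group
    rw [h1]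
    exact A.mul_mem ha (hA.conj_mem _ (A.inv_mem ha) b)
  have hcB : ⁅a, b⁆ ∈ B := by
    rw [commutatorElement_def]
    exact B.mul_mem (hB.conj_mem _ hb a) (B.inv_mem hb)
  apply hZ (A ⊔ B) _ (Subgroup.commutator_mem_commutator (Subgroup.mem_sup_left ha)
    (Subgroup.mem_sup_right hb))
  have h1 : A ⊔ B ≤ Subgroup.centralizer {⁅a, b⁆} := by
    apply sup_le
    · intro k hk
      rw [Subgroup.mem_centralizer_iff]
      intro c hc
      rw [Set.mem_singleton_iff] at hc
      rw [hc]
      exact hAa _ hcA _ hk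
    · intro k hk
      rw [Subgroup.mem_centralizer_iff]
      intro c hc
      rw [Set.mem_singleton_iff] at hc
      rw [hc]
      exact hBa _ hcB _ hk
  intro k hk
  have h2 := Subgroup.mem_centralizer_iff.1 (h1 hk) _ (Set.mem_singleton _)
  exact h2.symm

theorem cA_abSub {Y : Type*} [Group Y] (hZ : ZP Y) : AbSub (cA Y) := by
  have h1 : cA Y ≤ Subgroup.centralizer (cA Y : Set Y) := by
    apply sSup_le
    rintro N ⟨hN, hNa⟩
    have h2 : cA Y ≤ Subgroup.centralizer (N : Set Y) := by
      apply sSup_le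
      rintro N' ⟨hN', hNa'⟩
      intro x hx
      rw [Subgroup.mem_centralizer_iff]
      intro y hy
      exact commute_of hZ hN hN' hNa hNa' y hy x hx
    intro x hx
    rw [Subgroup.mem_centralizer_iff]
    intro y hy
    exact (Subgroup.mem_centralizer_iff.1 (h2 hy) x hx).symm
  intro x hx y hy
  exact (Subgroup.mem_centralizer_iff.1 (h1 hy) x hx)

/-- derived series of a subgroup -/
def dser {Y : Type*} [Group Y] (X : Subgroup Y) : ℕ → Subgroup Y
  | 0 => X
  | n + 1 => ⁅dser X n, dser X n⁆

theorem dser_normal {Y : Type*} [Group Y] {X : Subgroup Y} (hX : X.Normal) (n : ℕ) :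
    (dser X n).Normal := by
  induction n with
  | zero => exact hX
  | succ n ih => exact Subgroup.commutator_normal _ _

theorem dser_le {Y : Type*} [Group Y] (X : Subgroup Y) (n : ℕ) :
    dser X n ≤ derivedSeries Y n := by
  induction n with
  | zero => exact le_top
  | succ n ih => exact Subgroup.commutator_mono ih ih

theorem dser_le_self {Y : Type*} [Group Y] (X : Subgroup Y) (n : ℕ) : dser X n ≤ X := by
  induction n with
  | zero => exact le_rfl
  | succ n ih => exact ((dser X n).commutator_le_self).trans ih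

theorem cA_self {Y : Type*} [Group Y] (hZ : ZP Y) (hsol : Group.IsSolvable Y) {x : Y}
    (hx : ∀ a ∈ cA Y, x * a = a * x) : x ∈ cA Y := by
  by_contra hxA
  have hcn := cA_normal Y
  set X := Subgroup.centralizer (cA Y : Set Y) with hX
  have hXn : X.Normal := by
    constructor
    intro y hy g
    rw [hX, Subgroup.mem_centralizer_iff] at hy ⊢
    intro a ha
    have h1 := hy (g⁻¹ * a * g) (by simpa using hcn.conj_mem a ha g⁻¹)
    have h2 : a * (g * y * g⁻¹) = g * ((g⁻¹ * a * g) * y) * g⁻¹ := by group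
    rw [h2, h1]
    group
  have hx0 : ¬ dser X 0 ≤ cA Y := by
    intro h
    apply hxA
    apply h
    show x ∈ X
    rw [hX, Subgroup.mem_centralizer_iff]
    intro a ha
    exact (hx a ha).symm
  have hex : ∃ n, dser X n ≤ cA Y := by
    obtain ⟨n, hn⟩ := hsol.solvable
    exact ⟨n, (dser_le X n).trans (by rw [hn]; exact bot_le)⟩
  classical
  obtain ⟨m, hm⟩ : ∃ m, Nat.find hex = m + 1 := by
    apply Nat.exists_eq_succ_of_ne_zero
    intro h0
    have := Nat.find_spec hex
    rw [h0] at this
    exact hx0 this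
  have h1 : dser X (m + 1) ≤ cA Y := by
    have := Nat.find_spec hex
    rwa [hm] at this
  have h2 : ¬ dser X m ≤ cA Y := Nat.find_min hex (by omega)
  apply h2
  apply le_cA (dser_normal hXn m)
  intro u hu v hv
  apply eq_of_comm_one
  have hc : ⁅u, v⁆ ∈ ⁅dser X m, dser X m⁆ := Subgroup.commutator_mem_commutator hu hv
  apply hZ (dser X m) _ hc
  intro k hk
  have h3 : k ∈ X := dser_le_self X m hk
  rw [hX, Subgroup.mem_centralizer_iff] at h3
  exact (h3 _ (h1 hc)).symm

theorem cA_char (Y : Type*) [Group Y] : (cA Y).Characteristic := by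
  rw [Subgroup.characteristic_iff_map_le]
  intro φ
  rw [Subgroup.map_le_iff_le_comap]
  apply sSup_le
  rintro N ⟨hN, hNa⟩
  rw [← Subgroup.map_le_iff_le_comap]
  apply le_cA
  · exact hN.map _ φ.surjective
  · rintro x ⟨a, ha, rfl⟩ y ⟨b, hb, rfl⟩
    rw [← map_mul, ← map_mul, hNa a ha b hb]

/-- a finitely generated soluble group of finite exponent is finite -/
theorem finite_of_solvable {Q : Type*} [Group Q] [Group.FG Q] (hsol : Group.IsSolvable Q) {E : ℕ}
    (hE0 : 0 < E) (hE : ∀ q : Q, q ^ E = 1) : Finite Q := by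
  have key : ∀ n, (derivedSeries Q n).FiniteIndex := by
    intro n
    induction n with
    | zero => rw [derivedSeries_zero]; infer_instance
    | succ n ih =>
      set H := derivedSeries Q n with hH
      have hfg : Group.FG H := H.fg_of_index_ne_zero
      have hfgA : Group.FG (Abelianization H) := QuotientGroup.fg _
      have hfin : Finite (Abelianization H) := by
        apply CommGroup.finite_of_fg_isMulTorsion
        intro q
        rw [isOfFinOrder_iff_pow_eq_one]
        refine ⟨E, hE0, ?_⟩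
        obtain ⟨h, hh⟩ := QuotientGroup.mk_surjective q
        have h1 : Abelianization.of h = q := hh
        rw [← h1, ← map_pow]
        have : h ^ E = 1 := by
          apply Subtype.ext
          simp [hE]
        rw [this, map_one]
      have hfi : (commutator H).FiniteIndex := by
        have : Finite (H ⧸ commutator H) := hfin
        exact Subgroup.finiteIndex_of_finite_quotient
      have e : ⁅H, H⁆ = (commutator H).map H.subtype := by
        rw [commutator_def, Subgroup.map_commutator, ← MonoidHom.range_eq_map,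
          Subgroup.range_subtype]
      rw [derivedSeries_succ, ← hH, e]
      constructor
      rw [Subgroup.index_map_subtype]
      exact mul_ne_zero hfi.index_ne_zero ih.index_ne_zero
  obtain ⟨n, hn⟩ := hsol.solvable
  have := key n
  rw [hn] at this
  rw [← Nat.card_pos_iff.trans (and_iff_right ⟨1⟩)]
  rw [← Subgroup.index_bot]
  exact Nat.pos_of_ne_zero this.index_ne_zero

theorem exists_pow {A : Type*} [CommGroup A] [Group.FG A] {x : A} (hx : x ≠ 1) :
    ∃ n : ℕ, 0 < n ∧ ∀ a : A, a ^ n ≠ x := by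
  have hx' : Additive.ofMul x ≠ 0 := by simpa using hx
  obtain ⟨c, hc⟩ := CharacterModule.exists_character_apply_ne_zero_of_ne_zero hx'
  set c' : Additive A →+ AddCircle (1 : ℚ) := c with hc'
  have hfg : AddGroup.FG c'.range := by
    have : AddGroup.FG (Additive A) := inferInstance
    exact AddGroup.fg_range c'
  have hfin : Finite c'.range := by
    apply AddCommGroup.finite_of_fg_isAddTorsion
    rintro ⟨z, hz⟩
    rw [← AddSubmonoid.isOfFinAddOrder_coe]
    obtain ⟨r, hr⟩ := QuotientAddGroup.mk_surjective z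
    have : Fact ((0 : ℚ) < 1) := ⟨one_pos⟩
    have h1 := AddCircle.addOrderOf_coe_rat (p := (1 : ℚ)) (q := r)
    rw [Rat.cast_id, mul_one] at h1
    have h2 : ((r : ℚ) : AddCircle (1 : ℚ)) = z := hr
    rw [h2] at h1
    rw [← addOrderOf_pos_iff, h1]
    exact r.pos
  refine ⟨Nat.card c'.range, Nat.card_pos, fun a ha => hc ?_⟩
  have h1 : Nat.card c'.range • (⟨c' (Additive.ofMul a), ⟨_, rfl⟩⟩ : c'.range) = 0 := by
    exact card_nsmul_eq_zero'
  have h2 := congrArg (Subtype.val) h1
  simp only [AddSubgroup.coe_nsmul, ZeroMemClass.coe_zero] at h2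
  rw [← ha]
  rw [ofMul_pow]
  rw [← map_nsmul] at h2
  exact h2

theorem finite_quot_pow {A : Type*} [CommGroup A] [Group.FG A] {n : ℕ} (hn : 0 < n) :
    (powMonoidHom n : A →* A).range.FiniteIndex := by
  have hfg : Group.FG (A ⧸ (powMonoidHom n : A →* A).range) := QuotientGroup.fg _
  have : Finite (A ⧸ (powMonoidHom n : A →* A).range) := by
    apply CommGroup.finite_of_fg_isMulTorsion
    intro q
    rw [isOfFinOrder_iff_pow_eq_one]
    refine ⟨n, hn, ?_⟩
    obtain ⟨h, rfl⟩ := QuotientGroup.mk_surjective q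
    rw [← QuotientGroup.mk_pow, QuotientGroup.eq_one_iff]
    exact ⟨h, rfl⟩
  exact Subgroup.finiteIndex_of_finite_quotient

theorem zp_subgroup {G : Type*} [Group G] (hZ : ZP G) (Y : Subgroup G) : ZP Y := by
  intro K x hx hc
  apply Subtype.ext
  apply hZ (K.map Y.subtype)
  · have : ((x : Y) : G) ∈ (⁅K, K⁆).map Y.subtype := ⟨x, hx, rfl⟩
    rwa [Subgroup.map_commutator] at this
  · rintro k ⟨k', hk', rfl⟩
    have := congrArg Subtype.val (hc k' hk')
    simpa using this

end RsvC

open RsvC in
theorem rf_virtSol {G : Type} [Group G] (hfg : Group.FG G) (hZ : ZP G) {E : ℕ} (hE0 : 0 < E)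
    (hE : ∀ H : Subgroup G, ExpP E H) (hS : VirtSol G) {x : G} (hx : x ≠ 1) :
    ∃ N : Subgroup G, N.Normal ∧ N.FiniteIndex ∧ x ∉ N := by
  obtain ⟨Y, hYn, hYfi, hYs⟩ := hS
  have hYfg : Group.FG Y := Y.fg_of_index_ne_zero
  have hZY := zp_subgroup hZ Y
  have hab := cA_abSub hZY
  have hcn := cA_normal Y
  have hch := cA_char Y
  have hQ : Finite (Y ⧸ cA Y) := by
    have h1 : Group.FG (Y ⧸ cA Y) := QuotientGroup.fg _
    have h2 : Group.IsSolvable (Y ⧸ cA Y) := Group.isSolvable_of_surjective
      (QuotientGroup.mk'_surjective (cA Y))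
    apply finite_of_solvable h2 hE0
    intro q
    obtain ⟨t, rfl⟩ := QuotientGroup.mk_surjective q
    rw [← QuotientGroup.mk_pow, QuotientGroup.eq_one_iff]
    apply cA_self hZY hYs
    intro a ha
    exact (hE Y (cA Y) hcn hab t a ha).1
  have hfi : (cA Y).FiniteIndex := Subgroup.finiteIndex_of_finite_quotient
  set A := (cA Y).map Y.subtype with hA
  have hAn : A.Normal := ConjAct.normal_of_characteristic_of_normal
  have hAfi : A.FiniteIndex := by
    constructor
    rw [hA, Subgroup.index_map_subtype]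
    exact mul_ne_zero hfi.index_ne_zero hYfi.index_ne_zero
  have hAab : AbSub A := by
    rintro x ⟨a, ha, rfl⟩ y ⟨b, hb, rfl⟩
    rw [← map_mul, ← map_mul, hab a ha b hb]
  by_cases hxA : x ∈ A
  · let _ : CommGroup A := { (inferInstance : Group A) with
      mul_comm := fun a b => Subtype.ext (hAab a a.2 b b.2) }
    have hAfg : Group.FG A := A.fg_of_index_ne_zero
    obtain ⟨n, hn, hpow⟩ := exists_pow (x := (⟨x, hxA⟩ : A)) (by
      intro h
      exact hx (congrArg Subtype.val h))
    refine ⟨((powMonoidHom n : A →* A).range).map A.subtype, ?_, ?_, ?_⟩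
    · constructor
      rintro _ ⟨_, ⟨a, rfl⟩, rfl⟩ g
      refine ⟨_, ⟨⟨g * a * g⁻¹, hAn.conj_mem a a.2 g⟩, rfl⟩, ?_⟩
      simp [powMonoidHom_apply, conj_pow]
    · constructor
      rw [Subgroup.index_map_subtype]
      exact mul_ne_zero (finite_quot_pow hn).index_ne_zero hAfi.index_ne_zero
    · rintro ⟨_, ⟨a, rfl⟩, h⟩
      apply hpow a
      apply Subtype.ext
      exact h
  · exact ⟨A, hAn, hAfi, hxA⟩

end Pool.Agent.helper80.RSV
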