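import Pool.Agent.helper96.RsvC

/-!
# RSV-D7: order of a finite group with few abelian and nonabelian minimal normal subgroups
-/

namespace Pool.Agent.helper80.RSV

open Function
open scoped commutatorElement Pointwise

namespace RsvD7

open RsvC

theorem centralizer_normal {H : Type*} [Group H] {N : Subgroup H} (hN : N.Normal) :
    (Subgroup.centralizer (N : Set H)).Normal := by
  constructor
  intro y hy g
  rw [Subgroup.mem_centralizer_iff] at hy ⊢
  intro a ha
  have h1 := hy (g⁻¹ * a * g) (by simpa using hN.conj_mem a ha g⁻¹)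
  have h2 : a * (g * y * g⁻¹) = g * ((g⁻¹ * a * g) * y) * g⁻¹ := by group
  rw [h2, h1]
  group

theorem abSub_of_comm_le {H : Type*} [Group H] (hZ : ZP H) {Y Z : Subgroup H}
    (hYZ : ⁅Y, Y⁆ ≤ Z) (hc : ∀ y ∈ Y, ∀ z ∈ Z, y * z = z * y) : AbSub Y := by
  intro u hu v hv
  apply eq_of_comm_one
  have hcm : ⁅u, v⁆ ∈ ⁅Y, Y⁆ := Subgroup.commutator_mem_commutator hu hv
  exact hZ Y _ hcm (fun k hk => hc k hk _ (hYZ hcm))

theorem snab_normal (H : Type*) [Group H] : (Snab H).Normal :=
  Subgroup.sSup_normal _ (fun _ h => h.1.1)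

theorem key {H : Type} [Group H] [Finite H] (hZ : ZP H) :
    Subgroup.centralizer ((cA H ⊔ Snab H : Subgroup H) : Set H) ≤ cA H := by
  set X := Subgroup.centralizer ((cA H ⊔ Snab H : Subgroup H) : Set H) with hX
  have hAn := cA_normal H
  have hSn := snab_normal H
  have hXn : X.Normal := centralizer_normal (Subgroup.sup_normal (cA H) (Snab H))
  have hXA : ∀ x ∈ X, ∀ a ∈ cA H, x * a = a * x := by
    intro x hx a ha
    exact (Subgroup.mem_centralizer_iff.1 hx a (Subgroup.mem_sup_left ha)).symm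
  have hXS : ∀ x ∈ X, ∀ a ∈ Snab H, x * a = a * x := by
    intro x hx a ha
    exact (Subgroup.mem_centralizer_iff.1 hx a (Subgroup.mem_sup_right ha)).symm
  by_contra hXle
  set Z := X ⊓ cA H with hZdef
  have hZn : Z.Normal := by
    rw [hZdef]; infer_instance
  -- minimal normal subgroup strictly between
  obtain ⟨Y, hY⟩ : ∃ Y : Subgroup H, Minimal (fun Y : Subgroup H => Y.Normal ∧ Z < Y ∧ Y ≤ X) Y := by
    have hfin : {Y : Subgroup H | Y.Normal ∧ Z < Y ∧ Y ≤ X}.Finite := Set.toFinite _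
    have hne : {Y : Subgroup H | Y.Normal ∧ Z < Y ∧ Y ≤ X}.Nonempty := by
      refine ⟨X, hXn, ?_, le_rfl⟩
      refine lt_of_le_of_ne inf_le_left ?_
      intro h
      apply hXle
      rw [← h]
      exact inf_le_right
    exact hfin.exists_minimal hne
  obtain ⟨⟨hYn, hZY, hYX⟩, hYmin⟩ := hY
  have hYZc : ∀ y ∈ Y, ∀ z ∈ Z, y * z = z * y := fun y hy z hz => hXA y (hYX hy) z hz.2
  have hnle : ¬ ⁅Y, Y⁆ ≤ Z := by
    intro h
    have hYab := abSub_of_comm_le hZ h hYZc
    have h1 : Y ≤ cA H := le_cA hYn hYab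
    exact not_le_of_gt hZY (le_inf hYX h1)
  have hY1n : (⁅Y, Y⁆ : Subgroup H).Normal := Subgroup.commutator_normal Y Y
  have hY1Y : ⁅Y, Y⁆ ≤ Y := Y.commutator_le_self
  have hY1nab : ¬ AbSub (⁅Y, Y⁆ : Subgroup H) := by
    intro h
    apply hnle
    exact le_inf (hY1Y.trans hYX) (le_cA hY1n h)
  have hmin : MinNormal (⁅Y, Y⁆ : Subgroup H) := by
    refine ⟨hY1n, ?_, ?_⟩
    · intro h
      apply hnle
      rw [h]
      exact bot_le
    · intro R hRn hRle hRne
      apply le_antisymm hRle
      have hRZ : ¬ R ≤ Z := by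
        intro h
        apply hRne
        rw [eq_bot_iff]
        intro r hr
        rw [Subgroup.mem_bot]
        exact hZ Y r (hRle hr) (fun k hk => hYZc k hk r (h hr))
      have h1 : Z < R ⊔ Z := by
        refine lt_of_le_of_ne le_sup_right ?_
        intro h
        exact hRZ (by rw [h]; exact le_sup_left)
      have h2 : R ⊔ Z ≤ Y := sup_le (hRle.trans hY1Y) hZY.le
      have h3 : Y ≤ R ⊔ Z := hYmin ⟨Subgroup.sup_normal R Z, h1, h2.trans hYX⟩ h2
      rw [Subgroup.commutator_le]
      intro u hu v hv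
      have hu' := h3 hu
      have hv' := h3 hv
      rw [Subgroup.mem_sup_of_normal_left] at hu' hv'
      obtain ⟨r, hr, z, hz, rfl⟩ := hu'
      obtain ⟨r', hr', z', hz', rfl⟩ := hv'
      rw [← QuotientGroup.eq_one_iff]
      have e1 : ((r : H) : H ⧸ R) = 1 := (QuotientGroup.eq_one_iff r).2 hr
      have e2 : ((r' : H) : H ⧸ R) = 1 := (QuotientGroup.eq_one_iff r').2 hr'
      have e3 : z * z' = z' * z := hYZc z (hZY.le hz) z' hz'
      have e4 : ((z : H) : H ⧸ R) * (z' : H) = (z' : H) * (z : H) := by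
        rw [← QuotientGroup.mk_mul, ← QuotientGroup.mk_mul, e3]
      rw [commutatorElement_def]
      simp only [QuotientGroup.mk_mul, QuotientGroup.mk_inv]
      rw [e1, e2, one_mul, one_mul, e4]
      group
  apply hY1nab
  intro u hu v hv
  have h5 : (⁅Y, Y⁆ : Subgroup H) ≤ Snab H := le_sSup ⟨hmin, hY1nab⟩
  exact hXS u (hYX (hY1Y hu)) v (h5 hv)

end RsvD7

open RsvC RsvD7 in
theorem card_le_of_radicals {H : Type} [Group H] [Finite H] (hZ : ZP H) {α σ : ℕ}
    (hA : ∀ A : Subgroup H, A.Normal → AbSub A → Nat.card A ≤ α)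
    (hS : Nat.card (Snab H) ≤ σ) : Nat.card H ≤ α * (α * σ).factorial := by
  have hAn := cA_normal H
  have hSn := snab_normal H
  have hcA : Nat.card (cA H) ≤ α := hA _ hAn (cA_abSub hZ)
  set N := cA H ⊔ Snab H with hN
  have hNn : N.Normal := Subgroup.sup_normal (cA H) (Snab H)
  have hNcard : Nat.card N ≤ α * σ := by
    have h1 : (N : Set H) = (cA H : Set H) * (Snab H : Set H) := Subgroup.normal_mul _ _
    have h2 : Nat.card N = Nat.card ((cA H : Set H) * (Snab H : Set H) : Set H) := by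
      rw [← h1]; rfl
    rw [h2]
    refine Set.natCard_mul_le.trans ?_
    exact Nat.mul_le_mul hcA hS
  set f : H →* Equiv.Perm N := (MulAut.toPerm N).comp MulAut.conjNormal with hf
  have hker : f.ker ≤ cA H := by
    refine le_trans ?_ (key hZ)
    intro x hx
    rw [Subgroup.mem_centralizer_iff]
    intro a ha
    have h1 : f x ⟨a, ha⟩ = ⟨a, ha⟩ := by
      rw [MonoidHom.mem_ker.1 hx]; rfl
    have h2 := congrArg Subtype.val h1
    have h3 : x * a * x⁻¹ = a := h2
    rw [mul_inv_eq_iff_eq_mul] at h3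
    exact h3.symm
  have h1 : Nat.card H = Nat.card f.ker * f.ker.index := (Subgroup.card_mul_index f.ker).symm
  have h2 : f.ker.index ≤ (α * σ).factorial := by
    rw [Subgroup.index_ker]
    have h3 : Nat.card f.range ≤ Nat.card (Equiv.Perm N) := Nat.card_le_card_of_injective _
      Subtype.val_injective
    have h4 : Nat.card (Equiv.Perm N) = (Nat.card N).factorial := Nat.card_perm
    rw [h4] at h3
    exact h3.trans (Nat.factorial_le hNcard)
  have h3 : Nat.card f.ker ≤ α := by
    refine le_trans ?_ hcA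
    exact Nat.card_le_card_of_injective (Subgroup.inclusion hker) (Subgroup.inclusion_injective _)
  rw [h1]
  exact Nat.mul_le_mul h3 h2

end Pool.Agent.helper80.RSV
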