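import Mathlib

/-!
# Definitions for `U`-bootstrap percolation on `ℤ²`
-/

set_option autoImplicit false

open MeasureTheory ProbabilityTheory

namespace Pool.Agent.helper96.Boot

/-- One step of the `U`-bootstrap dynamics:
`A ∪ {x : x + X ⊆ A for some X ∈ U}`. -/
def step (U : Finset (Finset (ℤ × ℤ))) (A : Set (ℤ × ℤ)) : Set (ℤ × ℤ) :=
  A ∪ {x | ∃ X ∈ U, ∀ y ∈ X, x + y ∈ A}

/-- The set `A_t` of sites infected by time `t`, starting from `A_0 = A`. -/
def evolve (U : Finset (Finset (ℤ × ℤ))) (A : Set (ℤ × ℤ)) : ℕ → Set (ℤ × ℤ)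
  | 0 => A
  | t + 1 => step U (evolve U A t)

/-- The closure `[A] = ⋃ₜ A_t`. -/
def bootClosure (U : Finset (Finset (ℤ × ℤ))) (A : Set (ℤ × ℤ)) : Set (ℤ × ℤ) :=
  ⋃ t : ℕ, evolve U A t

/-- The open half-plane `{x ∈ ℤ² : ⟨x, u⟩ < 0}` for the unit vector `u = (cos θ, sin θ)`. -/
def halfPlane (θ : ℝ) : Set (ℤ × ℤ) :=
  {x | (x.1 : ℝ) * Real.cos θ + (x.2 : ℝ) * Real.sin θ < 0}

/-- The direction `u = (cos θ, sin θ)` is stable: `[ℍ_u] = ℍ_u`. -/
def Stable (U : Finset (Finset (ℤ × ℤ))) (θ : ℝ) : Prop :=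
  bootClosure U (halfPlane θ) = halfPlane θ

/-- `U` is an update family: a finite nonempty collection of finite subsets of `ℤ² ∖ {0}`. -/
def IsUpdateFamily (U : Finset (Finset (ℤ × ℤ))) : Prop :=
  U.Nonempty ∧ ∀ X ∈ U, (0 : ℤ × ℤ) ∉ X

/-- `U` is subcritical: every open semicircle of directions contains a set of stable directions of
positive (Lebesgue) length. -/
def Subcritical (U : Finset (Finset (ℤ × ℤ))) : Prop :=
  ∀ α : ℝ, 0 < volume ({θ : ℝ | Stable U θ} ∩ Set.Ioo α (α + Real.pi))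

/-- The law `ℙ_p` of the initial set: every site of `ℤ²` is in `A` independently with probability
`p` (Mathlib's product of Bernoulli measures on `Set (ℤ × ℤ)`). -/
noncomputable def bernoulliSites (p : unitInterval) : Measure (Set (ℤ × ℤ)) :=
  setBernoulli (Set.univ : Set (ℤ × ℤ)) p

/-- The critical probability `p_c(U) = inf {p : ℙ_p([A] = ℤ²) = 1}`. -/
noncomputable def criticalProb (U : Finset (Finset (ℤ × ℤ))) : unitInterval :=
  sInf {p : unitInterval | bernoulliSites p {A | bootClosure U A = Set.univ} = 1}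

/-- The occupation time `T = min {t : 0 ∈ A_t}` of the origin (`∞` if there is no such `t`). -/
noncomputable def occTime (U : Finset (Finset (ℤ × ℤ))) (A : Set (ℤ × ℤ)) : ℕ∞ :=
  ⨅ (t : ℕ) (_ : (0 : ℤ × ℤ) ∈ evolve U A t), (t : ℕ∞)

end Pool.Agent.helper96.Boot
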