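import Pool.Agent.helper96.BootMain

set_option autoImplicit false

open MeasureTheory ProbabilityTheory unitInterval Filter Topology
open scoped ENNReal NNReal

namespace Pool.Agent.helper96.Boot

variable {U : Finset (Finset (ℤ × ℤ))}

/-- Gordan's alternative for a rule which lies in no open half-plane. -/
lemma exists_balance (X : Finset (ℤ × ℤ))
    (hX : ¬ ∃ u : ℝ × ℝ, ∀ y ∈ X, 0 < (y.1 : ℝ) * u.1 + (y.2 : ℝ) * u.2) :
    ∃ c : ℤ × ℤ → ℝ, (∀ y ∈ X, 0 ≤ c y) ∧ ∑ y ∈ X, c y = 1 ∧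
      ∑ y ∈ X, c y * (y.1 : ℝ) = 0 ∧ ∑ y ∈ X, c y * (y.2 : ℝ) = 0 := by
  classical
  set f : ℤ × ℤ → ℝ × ℝ := fun y => ((y.1 : ℝ), (y.2 : ℝ)) with hf
  have hinj : Function.Injective f := by
    intro y z h
    simp only [hf, Prod.mk.injEq, Int.cast_inj] at h
    exact Prod.ext h.1 h.2
  by_cases h0 : (0 : ℝ × ℝ) ∈ convexHull ℝ ((X.image f : Finset (ℝ × ℝ)) : Set (ℝ × ℝ))
  · rw [Finset.mem_convexHull'] at h0
    obtain ⟨w, hw0, hw1, hw2⟩ := h0
    refine ⟨fun y => w (f y), ?_, ?_, ?_, ?_⟩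
    · intro y hy
      exact hw0 _ (Finset.mem_image_of_mem f hy)
    · rw [Finset.sum_image (fun a _ b _ h => hinj h)] at hw1
      exact hw1
    · rw [Finset.sum_image (fun a _ b _ h => hinj h)] at hw2
      have := congrArg Prod.fst hw2
      rw [Prod.fst_sum] at this
      simpa [hf] using this
    · rw [Finset.sum_image (fun a _ b _ h => hinj h)] at hw2
      have := congrArg Prod.snd hw2
      rw [Prod.snd_sum] at this
      simpa [hf] using this
  · exfalso
    apply hX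
    have hcl : IsClosed (convexHull ℝ ((X.image f : Finset (ℝ × ℝ)) : Set (ℝ × ℝ))) :=
      (Finset.finite_toSet _).isClosed_convexHull ℝ
    obtain ⟨g, u, hg0, hg⟩ :=
      geometric_hahn_banach_point_closed (convex_convexHull ℝ _) hcl h0
    refine ⟨(g (1, 0), g (0, 1)), ?_⟩
    intro y hy
    have h1 := hg (f y) (subset_convexHull ℝ _ (by
      rw [Finset.mem_coe]; exact Finset.mem_image_of_mem f hy))
    have h2 : g (f y) = (y.1 : ℝ) * g (1, 0) + (y.2 : ℝ) * g (0, 1) := by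
      have : f y = (y.1 : ℝ) • ((1 : ℝ), (0 : ℝ)) + (y.2 : ℝ) • ((0 : ℝ), (1 : ℝ)) := by
        simp [hf]
      rw [this, map_add, map_smul, map_smul]
      simp
    rw [map_zero] at hg0
    simp only
    rw [← h2]
    linarith

/-- lattice points of a zonotope -/
def zono (V : Finset (ℤ × ℤ)) : Set (ℤ × ℤ) :=
  {x | ∃ a : ℤ × ℤ → ℝ, (∀ v ∈ V, 0 ≤ a v ∧ a v ≤ 2) ∧
    (x.1 : ℝ) = ∑ v ∈ V, a v * (v.1 : ℝ) ∧ (x.2 : ℝ) = ∑ v ∈ V, a v * (v.2 : ℝ)}

lemma zero_mem_zono (V : Finset (ℤ × ℤ)) : (0 : ℤ × ℤ) ∈ zono V :=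
  ⟨fun _ => 0, fun _ _ => by norm_num, by simp, by simp⟩

lemma zono_finite (V : Finset (ℤ × ℤ)) : (zono V).Finite := by
  set M : ℤ := ∑ v ∈ V, 2 * (|v.1| + |v.2|) with hM
  refine Set.Finite.subset (Finset.finite_toSet (box 0 M)) ?_
  rintro x ⟨a, ha, h1, h2⟩
  rw [Finset.mem_coe, mem_box]
  have hb : ∀ w : ℤ × ℤ → ℤ, (∀ v, |w v| ≤ |v.1| + |v.2|) →
      |∑ v ∈ V, a v * (w v : ℝ)| ≤ (M : ℝ) := by
    intro w hw
    rw [hM]
    push_cast
    refine (Finset.abs_sum_le_sum_abs _ _).trans (Finset.sum_le_sum (fun v hv => ?_))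
    rw [abs_mul]
    have e1 : |a v| ≤ 2 := by rw [abs_of_nonneg (ha v hv).1]; exact (ha v hv).2
    have e2 : |((w v : ℤ) : ℝ)| ≤ |(v.1 : ℝ)| + |(v.2 : ℝ)| := by exact_mod_cast hw v
    exact mul_le_mul e1 e2 (abs_nonneg _) (by norm_num)
  have hx1 : |(x.1 : ℝ)| ≤ M := by
    rw [h1]; exact hb (fun v => v.1) (fun v => by have := abs_nonneg v.2; omega)
  have hx2 : |(x.2 : ℝ)| ≤ M := by
    rw [h2]; exact hb (fun v => v.2) (fun v => by have := abs_nonneg v.1; omega)
  have hx1' : |x.1| ≤ M := by exact_mod_cast hx1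
  have hx2' : |x.2| ≤ M := by exact_mod_cast hx2
  rw [abs_le] at hx1' hx2'
  simp
  omega

/-- the zonotope is a stable healthy set -/
lemma zono_stable (hU : ∀ X ∈ U, ¬ ∃ u : ℝ × ℝ, ∀ y ∈ X, 0 < (y.1 : ℝ) * u.1 + (y.2 : ℝ) * u.2)
    (x : ℤ × ℤ) (hx : x ∈ zono (U.biUnion id)) (X : Finset (ℤ × ℤ)) (hX : X ∈ U) :
    ∃ y ∈ X, x + y ∈ zono (U.biUnion id) := by
  classical
  set V := U.biUnion id with hV
  have hXV : X ⊆ V := by
    intro y hy
    rw [hV, Finset.mem_biUnion]; exact ⟨X, hX, hy⟩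
  obtain ⟨a, ha, h1, h2⟩ := hx
  -- adding one copy of `y`
  have hadd : ∀ (b : ℤ × ℤ → ℝ), (∀ v ∈ V, 0 ≤ b v ∧ b v ≤ 2) →
      (x.1 : ℝ) = ∑ v ∈ V, b v * (v.1 : ℝ) → (x.2 : ℝ) = ∑ v ∈ V, b v * (v.2 : ℝ) →
      ∀ y ∈ X, b y ≤ 1 → x + y ∈ zono V := by
    intro b hb e1 e2 y hy hby
    refine ⟨fun v => b v + if v = y then 1 else 0, ?_, ?_, ?_⟩
    · intro v hv
      by_cases hvy : v = y
      · subst hvy
        simp only [if_true]
        have := (hb v hv).1
        constructor <;> linarith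
      · simp only [hvy, if_false, add_zero]
        exact hb v hv
    · simp only [add_mul, Finset.sum_add_distrib, ite_mul, one_mul, zero_mul,
        Finset.sum_ite_eq', hXV hy, if_true]
      rw [← e1]; push_cast [Prod.fst_add]; ring
    · simp only [add_mul, Finset.sum_add_distrib, ite_mul, one_mul, zero_mul,
        Finset.sum_ite_eq', hXV hy, if_true]
      rw [← e2]; push_cast [Prod.snd_add]; ring
  by_cases hcase : ∃ y ∈ X, a y ≤ 1
  · obtain ⟨y, hy, hay⟩ := hcase
    exact ⟨y, hy, hadd a ha h1 h2 y hy hay⟩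
  · push Not at hcase
    obtain ⟨c, hc0, hc1, hc2, hc3⟩ := exists_balance X (hU X hX)
    have hne : X.Nonempty := by
      rw [Finset.nonempty_iff_ne_empty]
      rintro rfl
      simp at hc1
    obtain ⟨y₀, hy₀, hmax⟩ := Finset.exists_max_image X c hne
    have hc : 0 < c y₀ := by
      by_contra hcon
      push Not at hcon
      have : ∑ y ∈ X, c y ≤ 0 := Finset.sum_nonpos (fun y hy => (hmax y hy).trans hcon)
      linarith
    set t : ℝ := 1 / c y₀ with ht
    have htpos : 0 < t := by positivity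
    have htc : t * c y₀ = 1 := by rw [ht]; field_simp
    set b : ℤ × ℤ → ℝ := fun v => a v - if v ∈ X then t * c v else 0 with hb
    have hsum : ∀ w : ℤ × ℤ → ℝ, ∑ v ∈ V, (if v ∈ X then t * c v else 0) * w v
        = t * ∑ v ∈ X, c v * w v := by
      intro w
      rw [Finset.mul_sum]
      simp only [ite_mul, zero_mul]
      rw [← Finset.sum_filter]
      have : V.filter (fun v => v ∈ X) = X := by
        ext v
        rw [Finset.mem_filter]
        exact ⟨fun h => h.2, fun h => ⟨hXV h, h⟩⟩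
      rw [this]
      refine Finset.sum_congr rfl (fun v _ => by ring)
    refine ⟨y₀, hy₀, hadd b ?_ ?_ ?_ y₀ hy₀ ?_⟩
    · intro v hv
      by_cases hvX : v ∈ X
      · simp only [hb, hvX, if_true]
        have e1 := hmax v hvX
        have e2 := hcase v hvX
        have e3 := hc0 v hvX
        have e4 : t * c v ≤ 1 := by
          rw [← htc]; exact mul_le_mul_of_nonneg_left e1 htpos.le
        have e5 : 0 ≤ t * c v := mul_nonneg htpos.le e3
        have e6 := (ha v hv).2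
        constructor <;> linarith
      · simp only [hb, hvX, if_false, sub_zero]
        exact ha v hv
    · simp only [hb, sub_mul, Finset.sum_sub_distrib]
      rw [hsum (fun v => (v.1 : ℝ)), hc2, mul_zero, sub_zero]
      exact h1
    · simp only [hb, sub_mul, Finset.sum_sub_distrib]
      rw [hsum (fun v => (v.2 : ℝ)), hc3, mul_zero, sub_zero]
      exact h2
    · simp only [hb, hy₀, if_true, htc]
      have := (ha y₀ (hXV hy₀)).2
      linarith

lemma evolve_disjoint_zono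
    (hU : ∀ X ∈ U, ¬ ∃ u : ℝ × ℝ, ∀ y ∈ X, 0 < (y.1 : ℝ) * u.1 + (y.2 : ℝ) * u.2)
    (A : Set (ℤ × ℤ)) (hA : ∀ x ∈ zono (U.biUnion id), x ∉ A) (t : ℕ) :
    ∀ x ∈ zono (U.biUnion id), x ∉ evolve U A t := by
  induction t with
  | zero => exact hA
  | succ t ih =>
    intro x hx h
    rw [mem_evolve_succ] at h
    rcases h with h | ⟨X, hX, h⟩
    · exact ih x hx h
    · obtain ⟨y, hy, hxy⟩ := zono_stable hU x hx X hX
      exact ih _ hxy (h y hy)

/-- If no rule lies in an open half-plane, then `p_c = 1`. -/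
lemma criticalProb_eq_one
    (hU : ∀ X ∈ U, ¬ ∃ u : ℝ × ℝ, ∀ y ∈ X, 0 < (y.1 : ℝ) * u.1 + (y.2 : ℝ) * u.2) :
    criticalProb U = 1 := by
  refine le_antisymm le_one' ?_
  refine le_sInf (fun p hp => ?_)
  by_contra hlt
  push Not at hlt
  set H := (zono_finite (U.biUnion id)).toFinset with hH
  have h1 : bernoulliSites p (cyl H ∅) ≠ 0 := by
    rw [prob_cyl]
    unfold wt
    simp only [Finset.notMem_empty, if_false]
    rw [Finset.prod_const]
    have : toNNReal (σ p) ≠ 0 := by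
      intro h
      have h2 : ((toNNReal (σ p) : ℝ≥0) : ℝ) = 0 := by rw [h]; rfl
      have h3 : ((toNNReal (σ p) : ℝ≥0) : ℝ) = 1 - (p : ℝ) := by simp
      rw [h3] at h2
      have h4 : (p : ℝ) < 1 := hlt
      linarith
    exact_mod_cast pow_ne_zero _ this
  have h2 : {A | bootClosure U A = Set.univ} ⊆ (cyl H ∅)ᶜ := by
    intro A hA hcyl
    have h3 : ∀ x ∈ zono (U.biUnion id), x ∉ A := by
      intro x hx hxA
      have := (hcyl x (by rw [hH, Set.Finite.mem_toFinset]; exact hx)).1 hxA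
      simp at this
    have h4 : (0 : ℤ × ℤ) ∈ bootClosure U A := by
      have : bootClosure U A = Set.univ := hA
      rw [this]; trivial
    unfold bootClosure at h4
    rw [Set.mem_iUnion] at h4
    obtain ⟨t, ht⟩ := h4
    exact evolve_disjoint_zono hU A h3 t 0 (zero_mem_zono _) ht
  have h3 : (1 : ℝ≥0∞) ≤ bernoulliSites p (cyl H ∅)ᶜ := by
    have : bernoulliSites p {A | bootClosure U A = Set.univ} = 1 := hp
    rw [← this]; exact measure_mono h2
  rw [prob_compl_eq_one_sub (measurableSet_cyl H ∅)] at h3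
  have h4 : (1 : ℝ≥0∞) - bernoulliSites p (cyl H ∅) < 1 :=
    ENNReal.sub_lt_self ENNReal.one_ne_top one_ne_zero h1
  exact absurd h3 (not_le.2 h4)

/-- a subcritical family does not contain the empty rule -/
lemma Subcritical.empty_notMem (h : Subcritical U) : ∅ ∉ U := by
  intro hU
  have h1 := h 0
  have h2 : {θ : ℝ | Stable U θ} = ∅ := by
    ext θ
    simp only [Set.mem_ofPred_eq, Set.mem_empty_iff_false, iff_false]
    intro hs
    have h3 : (0 : ℤ × ℤ) ∈ bootClosure U (halfPlane θ) := by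
      unfold bootClosure
      rw [Set.mem_iUnion]
      refine ⟨1, ?_⟩
      rw [mem_evolve_succ]
      right
      exact ⟨∅, hU, by simp⟩
    rw [hs] at h3
    simp [halfPlane] at h3
  rw [h2] at h1
  simp at h1

end Pool.Agent.helper96.Boot
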