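import Pool.Agent.helper96.BootPath

set_option autoImplicit false

open MeasureTheory ProbabilityTheory unitInterval Filter Topology
open scoped ENNReal NNReal

namespace Pool.Agent.helper96.Boot

variable {U : Finset (Finset (ℤ × ℤ))}

/-- A rule inside an open half-plane has an integral functional which is positive on it. -/
lemma exists_lin (X₀ : Finset (ℤ × ℤ)) (u : ℝ × ℝ)
    (hu : ∀ y ∈ X₀, 0 < (y.1 : ℝ) * u.1 + (y.2 : ℝ) * u.2) :
    ∃ a b m : ℤ, 1 ≤ m ∧ ∀ y ∈ X₀, 1 ≤ lin a b y ∧ lin a b y ≤ m := by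
  have h1 : ∃ N : ℕ, ∀ y ∈ X₀, |(y.1 : ℝ)| + |(y.2 : ℝ)| < N * ((y.1 : ℝ) * u.1 + (y.2 : ℝ) * u.2) := by
    choose! f hf using fun (y : ℤ × ℤ) (hy : y ∈ X₀) =>
      exists_nat_gt ((|(y.1 : ℝ)| + |(y.2 : ℝ)|) / ((y.1 : ℝ) * u.1 + (y.2 : ℝ) * u.2))
    refine ⟨∑ y ∈ X₀, f y, fun y hy => ?_⟩
    have h2 := hf y hy
    rw [div_lt_iff₀ (hu y hy)] at h2
    refine lt_of_lt_of_le h2 ?_
    apply mul_le_mul_of_nonneg_right _ (hu y hy).le
    exact_mod_cast Finset.single_le_sum (f := f) (fun _ _ => Nat.zero_le _) hy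
  obtain ⟨N, hN⟩ := h1
  refine ⟨⌊(N : ℝ) * u.1⌋, ⌊(N : ℝ) * u.2⌋,
    1 + ∑ y ∈ X₀, |lin ⌊(N : ℝ) * u.1⌋ ⌊(N : ℝ) * u.2⌋ y|, ?_, ?_⟩
  · have : 0 ≤ ∑ y ∈ X₀, |lin ⌊(N : ℝ) * u.1⌋ ⌊(N : ℝ) * u.2⌋ y| :=
      Finset.sum_nonneg (fun _ _ => abs_nonneg _)
    omega
  · intro y hy
    constructor
    · have h3 := hN y hy
      set a := ⌊(N : ℝ) * u.1⌋ with ha
      set b := ⌊(N : ℝ) * u.2⌋ with hb
      have ha1 : |(a : ℝ) - N * u.1| ≤ 1 := by
        rw [abs_le]
        constructor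
        · have := Int.lt_floor_add_one ((N : ℝ) * u.1); linarith
        · have := Int.floor_le ((N : ℝ) * u.1); linarith
      have hb1 : |(b : ℝ) - N * u.2| ≤ 1 := by
        rw [abs_le]
        constructor
        · have := Int.lt_floor_add_one ((N : ℝ) * u.2); linarith
        · have := Int.floor_le ((N : ℝ) * u.2); linarith
      have h4 : ((a : ℝ) - N * u.1) * y.1 ≥ -|(y.1 : ℝ)| := by
        have : |((a : ℝ) - N * u.1) * y.1| ≤ 1 * |(y.1 : ℝ)| := by
          rw [abs_mul]; exact mul_le_mul_of_nonneg_right ha1 (abs_nonneg _)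
        have := (abs_le.1 this).1
        linarith
      have h5 : ((b : ℝ) - N * u.2) * y.2 ≥ -|(y.2 : ℝ)| := by
        have : |((b : ℝ) - N * u.2) * y.2| ≤ 1 * |(y.2 : ℝ)| := by
          rw [abs_mul]; exact mul_le_mul_of_nonneg_right hb1 (abs_nonneg _)
        have := (abs_le.1 this).1
        linarith
      have h6 : (0 : ℝ) < ((lin a b y : ℤ) : ℝ) := by
        unfold lin
        push_cast
        nlinarith
      have h7 : 0 < lin a b y := by exact_mod_cast h6
      omega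
    · have h3 : |lin ⌊(N : ℝ) * u.1⌋ ⌊(N : ℝ) * u.2⌋ y| ≤
          ∑ y ∈ X₀, |lin ⌊(N : ℝ) * u.1⌋ ⌊(N : ℝ) * u.2⌋ y| :=
        Finset.single_le_sum (f := fun y => |lin ⌊(N : ℝ) * u.1⌋ ⌊(N : ℝ) * u.2⌋ y|)
          (fun _ _ => abs_nonneg _) hy
      have h4 := le_abs_self (lin ⌊(N : ℝ) * u.1⌋ ⌊(N : ℝ) * u.2⌋ y)
      omega

lemma card_incr_le {a b m : ℤ} (hab : a ≠ 0 ∨ b ≠ 0) (R h : ℕ) :
    (incr a b m R h).card ≤ (2 * (R * h) + 1) * m.toNat := by
  have hcard : (Finset.Icc (-(R * h : ℤ)) (R * h) ×ˢ Finset.Ico (h : ℤ) (h + m)).card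
      = (2 * (R * h) + 1) * m.toNat := by
    rw [Finset.card_product, Int.card_Icc, Int.card_Ico]
    congr 1
    · have : (R * h : ℤ) + 1 - -(R * h : ℤ) = ((2 * (R * h) + 1 : ℕ) : ℤ) := by push_cast; ring
      rw [this]; exact Int.toNat_natCast _
    · congr 1; ring
  rw [← hcard]
  rcases hab with hab | hab
  · apply Finset.card_le_card_of_injOn (fun d => (d.2, lin a b d))
    · intro d hd
      rw [Finset.mem_coe, mem_incr] at hd
      rw [Finset.mem_coe, Finset.mem_product, Finset.mem_Icc, Finset.mem_Ico]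
      exact ⟨hd.1.2, hd.2⟩
    · intro d _ d' _ hdd
      simp only [Prod.mk.injEq] at hdd
      obtain ⟨h1, h2⟩ := hdd
      unfold lin at h2
      rw [h1] at h2
      have h3 : a * d.1 = a * d'.1 := by linarith
      exact Prod.ext (mul_left_cancel₀ hab h3) h1
  · apply Finset.card_le_card_of_injOn (fun d => (d.1, lin a b d))
    · intro d hd
      rw [Finset.mem_coe, mem_incr] at hd
      rw [Finset.mem_coe, Finset.mem_product, Finset.mem_Icc, Finset.mem_Ico]
      exact ⟨hd.1.1, hd.2⟩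
    · intro d _ d' _ hdd
      simp only [Prod.mk.injEq] at hdd
      obtain ⟨h1, h2⟩ := hdd
      unfold lin at h2
      rw [h1] at h2
      have h3 : b * d.2 = b * d'.2 := by linarith
      exact Prod.ext h1 (mul_left_cancel₀ hab h3)

/-- Finite-size criterion. -/
lemma perc_of_small {R : ℕ} {a b m : ℤ} {X₀ : Finset (ℤ × ℤ)} (hX₀ : X₀ ∈ U)
    (hRU : ∀ X ∈ U, ∀ y ∈ X, |y.1| ≤ (R : ℤ) ∧ |y.2| ≤ (R : ℤ))
    (hl : ∀ y ∈ X₀, 1 ≤ lin a b y ∧ lin a b y ≤ m) (hm : 1 ≤ m) (h n : ℕ)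
    (hh : 2 * (|a| + |b|) * (R * n) < h) (p : unitInterval)
    (hp : ((incr a b m R h).card : ℝ≥0∞) * bernoulliSites p (notInf U n 0) < 1) :
    bernoulliSites p {A | bootClosure U A = Set.univ} = 1 := by
  have h1 : ∀ x : ℤ × ℤ, bernoulliSites p {A | ∀ t, x ∉ evolve U A t} = 0 := by
    intro x
    have h2 : ∀ k : ℕ, bernoulliSites p {A | ∀ t, x ∉ evolve U A t} ≤
        (((incr a b m R h).card : ℝ≥0∞) * bernoulliSites p (notInf U n 0)) ^ k := by
      intro k
      calc bernoulliSites p {A | ∀ t, x ∉ evolve U A t}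
          ≤ bernoulliSites p (notInf U (n + k * h) x) := measure_mono (fun A hA => hA _)
        _ ≤ bernoulliSites p (chain U (incr a b m R h) n k x) :=
            measure_mono (notInf_subset_chain hX₀ (hRU X₀ hX₀) hl hm h n k x)
        _ ≤ _ := prob_chain_le hRU h n hh p k x
    have h3 := ENNReal.tendsto_pow_atTop_nhds_zero_of_lt_one hp
    have h4 := ge_of_tendsto' h3 h2
    exact le_antisymm h4 zero_le
  have h2 : bernoulliSites p {A | bootClosure U A = Set.univ}ᶜ = 0 := by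
    have h3 : {A : Set (ℤ × ℤ) | bootClosure U A = Set.univ}ᶜ
        = ⋃ x : ℤ × ℤ, {A | ∀ t, x ∉ evolve U A t} := by
      ext A
      simp only [Set.mem_compl_iff, Set.mem_ofPred_eq, Set.mem_iUnion, Set.eq_univ_iff_forall,
        bootClosure, not_forall, not_exists]
    rw [h3, measure_iUnion_null_iff]
    exact h1
  have h3 : (1 : ℝ≥0∞) ≤ bernoulliSites p {A | bootClosure U A = Set.univ} := by
    calc (1 : ℝ≥0∞) = bernoulliSites p Set.univ := measure_univ.symm
      _ = bernoulliSites p ({A | bootClosure U A = Set.univ} ∪ {A | bootClosure U A = Set.univ}ᶜ) := by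
          rw [Set.union_compl_self]
      _ ≤ _ := measure_union_le _ _
      _ = bernoulliSites p {A | bootClosure U A = Set.univ} := by rw [h2, add_zero]
  exact le_antisymm prob_le_one h3

lemma bernoulliSites_one : bernoulliSites 1 = Measure.dirac (Set.univ : Set (ℤ × ℤ)) := by
  unfold bernoulliSites; exact setBernoulli_one _

lemma bernoulliSites_zero : bernoulliSites 0 = Measure.dirac (∅ : Set (ℤ × ℤ)) := by
  unfold bernoulliSites; exact setBernoulli_zero _

lemma evolve_univ (n : ℕ) : evolve U Set.univ n = Set.univ := by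
  induction n with
  | zero => rfl
  | succ n ih =>
    apply Set.eq_univ_of_univ_subset
    conv_lhs => rw [← ih]
    exact evolve_succ_subset _ _

lemma evolve_empty (h0 : ∅ ∉ U) (n : ℕ) : evolve U ∅ n = ∅ := by
  induction n with
  | zero => rfl
  | succ n ih =>
    ext x
    rw [mem_evolve_succ, ih]
    simp only [Set.mem_empty_iff_false, false_or, iff_false, not_exists, not_and, not_forall]
    intro X hX
    rcases Finset.eq_empty_or_nonempty X with h | ⟨y, hy⟩
    · subst h; exact absurd hX h0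
    · exact ⟨y, hy, not_false⟩

lemma notInf_one (n : ℕ) : bernoulliSites 1 (notInf U n 0) = 0 := by
  obtain ⟨R, -, hR⟩ := exists_radius U
  rw [bernoulliSites_one, Measure.dirac_apply' _ (notInf_dep hR n 0).measurableSet]
  have : (Set.univ : Set (ℤ × ℤ)) ∉ notInf U n 0 := by
    intro h
    apply h
    rw [evolve_univ]; trivial
  simp [this]

lemma notInf_zero (h0 : ∅ ∉ U) (n : ℕ) : bernoulliSites 0 (notInf U n 0) = 1 := by
  obtain ⟨R, -, hR⟩ := exists_radius U
  rw [bernoulliSites_zero, Measure.dirac_apply' _ (notInf_dep hR n 0).measurableSet]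
  have : (∅ : Set (ℤ × ℤ)) ∈ notInf U n 0 := by
    show (0 : ℤ × ℤ) ∉ evolve U ∅ n
    rw [evolve_empty h0]; simp
  simp [this]

lemma criticalProb_le {p : unitInterval}
    (hp : bernoulliSites p {A | bootClosure U A = Set.univ} = 1) : criticalProb U ≤ p :=
  sInf_le hp

lemma continuous_rho (c : ℕ) (n : ℕ) :
    Continuous (fun p : unitInterval => (c : ℝ≥0∞) * bernoulliSites p (notInf U n 0)) := by
  obtain ⟨R, -, hR⟩ := exists_radius U
  exact (ENNReal.continuous_const_mul (ENNReal.natCast_ne_top c)).comp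
    (continuous_prob (notInf_dep hR n 0))

/-- The key lower bound at the critical point. -/
lemma critical_lower {R : ℕ} {a b m : ℤ} {X₀ : Finset (ℤ × ℤ)} (hX₀ : X₀ ∈ U)
    (hRU : ∀ X ∈ U, ∀ y ∈ X, |y.1| ≤ (R : ℤ) ∧ |y.2| ≤ (R : ℤ))
    (hl : ∀ y ∈ X₀, 1 ≤ lin a b y ∧ lin a b y ≤ m) (hm : 1 ≤ m) (h n : ℕ)
    (hh : 2 * (|a| + |b|) * (R * n) < h) (hpc : 0 < criticalProb U) :
    1 ≤ ((incr a b m R h).card : ℝ≥0∞) * bernoulliSites (criticalProb U) (notInf U n 0) := by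
  by_contra hcon
  push Not at hcon
  have h1 := (continuous_rho (U := U) (incr a b m R h).card n).continuousAt (x := criticalProb U)
  have h2 : ∀ᶠ p in 𝓝 (criticalProb U),
      ((incr a b m R h).card : ℝ≥0∞) * bernoulliSites p (notInf U n 0) < 1 :=
    h1.eventually (gt_mem_nhds hcon)
  have h3 : ∀ᶠ p in 𝓝[<] (criticalProb U),
      ((incr a b m R h).card : ℝ≥0∞) * bernoulliSites p (notInf U n 0) < 1 :=
    h2.filter_mono nhdsWithin_le_nhds
  have h4 : (𝓝[<] (criticalProb U)).NeBot := nhdsLT_neBot_of_exists_lt ⟨0, hpc⟩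
  obtain ⟨p, hp1, hp2⟩ := (h3.and self_mem_nhdsWithin).exists
  have h5 := criticalProb_le (perc_of_small hX₀ hRU hl hm h n hh p hp1)
  exact absurd hp2 (not_lt.2 h5)

lemma criticalProb_lt_one {R : ℕ} {a b m : ℤ} {X₀ : Finset (ℤ × ℤ)} (hX₀ : X₀ ∈ U)
    (hRU : ∀ X ∈ U, ∀ y ∈ X, |y.1| ≤ (R : ℤ) ∧ |y.2| ≤ (R : ℤ))
    (hl : ∀ y ∈ X₀, 1 ≤ lin a b y ∧ lin a b y ≤ m) (hm : 1 ≤ m) : criticalProb U < 1 := by
  have hh : 2 * (|a| + |b|) * ((R : ℤ) * (0 : ℕ)) < (1 : ℕ) := by simp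
  have h1 := (continuous_rho (U := U) (incr a b m R 1).card 0).continuousAt (x := 1)
  have h0 : ((incr a b m R 1).card : ℝ≥0∞) * bernoulliSites 1 (notInf U 0 0) < 1 := by
    rw [notInf_one]; simp
  have h2 : ∀ᶠ p in 𝓝 (1 : unitInterval),
      ((incr a b m R 1).card : ℝ≥0∞) * bernoulliSites p (notInf U 0 0) < 1 :=
    h1.eventually (gt_mem_nhds h0)
  have h3 : ∀ᶠ p in 𝓝[<] (1 : unitInterval),
      ((incr a b m R 1).card : ℝ≥0∞) * bernoulliSites p (notInf U 0 0) < 1 :=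
    h2.filter_mono nhdsWithin_le_nhds
  have h4 : (𝓝[<] (1 : unitInterval)).NeBot := nhdsLT_neBot_of_exists_lt ⟨0, zero_lt_one⟩
  obtain ⟨p, hp1, hp2⟩ := (h3.and self_mem_nhdsWithin).exists
  have h5 := criticalProb_le (perc_of_small hX₀ hRU hl hm 1 0 hh p hp1)
  exact lt_of_le_of_lt h5 hp2

lemma lt_occTime_iff (A : Set (ℤ × ℤ)) (n : ℕ) :
    (n : ℕ∞) < occTime U A ↔ (0 : ℤ × ℤ) ∉ evolve U A n := by
  rw [← ENat.add_one_le_iff (ENat.natCast_ne_top n)]
  unfold occTime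
  simp only [le_iInf_iff]
  constructor
  · intro h hn
    have := h n hn
    have h2 : ((n + 1 : ℕ) : ℕ∞) ≤ (n : ℕ∞) := by exact_mod_cast this
    rw [Nat.cast_le] at h2
    omega
  · intro h t ht
    have h2 : n + 1 ≤ t := by
      by_contra hlt
      exact h (evolve_mono_time A (by omega) ht)
    exact_mod_cast h2

lemma sum_le_occTime (A : Set (ℤ × ℤ)) (N : ℕ) :
    ∑ n ∈ Finset.range N, (notInf U n 0).indicator (fun _ => (1 : ℝ≥0∞)) A
      ≤ ((occTime U A : ℕ∞) : ℝ≥0∞) := by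
  induction N with
  | zero => simp
  | succ N ih =>
    rw [Finset.sum_range_succ]
    by_cases h : A ∈ notInf U N 0
    · have h1 : (N : ℕ∞) < occTime U A := (lt_occTime_iff A N).2 h
      have h2 : ∑ n ∈ Finset.range N, (notInf U n 0).indicator (fun _ => (1 : ℝ≥0∞)) A ≤ N := by
        calc _ ≤ ∑ n ∈ Finset.range N, (1 : ℝ≥0∞) :=
              Finset.sum_le_sum (fun n _ => Set.indicator_le_self' (fun _ _ => zero_le) A)
          _ = N := by simp
      have h3 : (((N : ℕ∞) + 1 : ℕ∞) : ℝ≥0∞) ≤ ((occTime U A : ℕ∞) : ℝ≥0∞) := by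
        apply ENat.toENNReal_le.2
        exact (ENat.add_one_le_iff (ENat.natCast_ne_top N)).2 h1
      rw [Set.indicator_of_mem h]
      calc _ ≤ (N : ℝ≥0∞) + 1 := by gcongr
        _ = (((N : ℕ∞) + 1 : ℕ∞) : ℝ≥0∞) := by simp
        _ ≤ _ := h3
    · rw [Set.indicator_of_notMem h, add_zero]; exact ih

lemma sum_prob_le (p : unitInterval) (N : ℕ) :
    ∑ n ∈ Finset.range N, bernoulliSites p (notInf U n 0)
      ≤ ∫⁻ A, ((occTime U A : ℕ∞) : ℝ≥0∞) ∂(bernoulliSites p) := by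
  obtain ⟨R, -, hR⟩ := exists_radius U
  calc ∑ n ∈ Finset.range N, bernoulliSites p (notInf U n 0)
      = ∑ n ∈ Finset.range N, ∫⁻ A, (notInf U n 0).indicator (fun _ => (1 : ℝ≥0∞)) A
          ∂(bernoulliSites p) := by
        refine Finset.sum_congr rfl (fun n _ => ?_)
        rw [lintegral_indicator (notInf_dep hR n 0).measurableSet]
        simp
    _ = ∫⁻ A, ∑ n ∈ Finset.range N, (notInf U n 0).indicator (fun _ => (1 : ℝ≥0∞)) A
          ∂(bernoulliSites p) := by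
        rw [lintegral_finsetSum]
        intro n _
        exact measurable_const.indicator (notInf_dep hR n 0).measurableSet
    _ ≤ _ := lintegral_mono (fun A => sum_le_occTime A N)

/-- At criticality the tail of the occupation time is at least `c / n`. -/
lemma critical_tail (h0 : ∅ ∉ U) {X₀ : Finset (ℤ × ℤ)} (hX₀ : X₀ ∈ U) (u : ℝ × ℝ)
    (hu : ∀ y ∈ X₀, 0 < (y.1 : ℝ) * u.1 + (y.2 : ℝ) * u.2) :
    ∃ C : ℕ, 1 ≤ C ∧ ∀ n : ℕ, 1 ≤ n →
      1 ≤ ((C * n : ℕ) : ℝ≥0∞) * bernoulliSites (criticalProb U) (notInf U n 0) := by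
  obtain ⟨a, b, m, hm, hl⟩ := exists_lin X₀ u hu
  obtain ⟨R, hR1, hRU⟩ := exists_radius U
  have hne : X₀.Nonempty := by
    rcases Finset.eq_empty_or_nonempty X₀ with h | h
    · subst h; exact absurd hX₀ h0
    · exact h
  have hab : a ≠ 0 ∨ b ≠ 0 := by
    obtain ⟨y, hy⟩ := hne
    by_contra hcon
    push Not at hcon
    have := (hl y hy).1
    rw [hcon.1, hcon.2] at this
    simp [lin] at this
  set q : ℕ := a.natAbs + b.natAbs with hq
  refine ⟨(2 * (R * (2 * q * R + 1)) + 1) * m.toNat, ?_, ?_⟩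
  · have : 1 ≤ m.toNat := by omega
    exact Nat.one_le_iff_ne_zero.2 (by positivity)
  intro n hn
  rcases eq_or_lt_of_le (zero_le (a := criticalProb U)) with hz | hz
  · rw [← hz, notInf_zero h0, mul_one]
    have h1 : 1 ≤ (2 * (R * (2 * q * R + 1)) + 1) * m.toNat * n := by
      have : 1 ≤ m.toNat := by omega
      exact Nat.one_le_iff_ne_zero.2 (by positivity)
    exact_mod_cast h1
  · have hh : 2 * (|a| + |b|) * ((R : ℤ) * n) < ((2 * q * R * n + 1 : ℕ) : ℤ) := by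
      push_cast
      rw [hq]
      push_cast
      have : 2 * (|a| + |b|) * ((R : ℤ) * n) = 2 * (|a| + |b|) * R * n := by ring
      rw [this]
      omega
    have h1 := critical_lower hX₀ hRU hl hm (2 * q * R * n + 1) n hh hz
    refine h1.trans ?_
    gcongr
    have h2 := card_incr_le (m := m) hab R (2 * q * R * n + 1)
    refine h2.trans ?_
    have h3 : 2 * (R * (2 * q * R * n + 1)) + 1 ≤ (2 * (R * (2 * q * R + 1)) + 1) * n := by
      nlinarith [Nat.zero_le R, Nat.zero_le q]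
    calc (2 * (R * (2 * q * R * n + 1)) + 1) * m.toNat
        ≤ ((2 * (R * (2 * q * R + 1)) + 1) * n) * m.toNat := Nat.mul_le_mul_right _ h3
      _ = (2 * (R * (2 * q * R + 1)) + 1) * m.toNat * n := by ring

/-- infinite expectation at criticality -/
lemma critical_expectation (h0 : ∅ ∉ U) {X₀ : Finset (ℤ × ℤ)} (hX₀ : X₀ ∈ U) (u : ℝ × ℝ)
    (hu : ∀ y ∈ X₀, 0 < (y.1 : ℝ) * u.1 + (y.2 : ℝ) * u.2) :
    ∫⁻ A, ((occTime U A : ℕ∞) : ℝ≥0∞) ∂(bernoulliSites (criticalProb U)) = ⊤ := by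
  obtain ⟨C, hC, hbound⟩ := critical_tail h0 hX₀ u hu
  by_contra hcon
  set E := ∫⁻ A, ((occTime U A : ℕ∞) : ℝ≥0∞) ∂(bernoulliSites (criticalProb U)) with hE
  -- real valued sequence
  set f : ℕ → ℝ := fun n => (bernoulliSites (criticalProb U) (notInf U n 0)).toReal with hf
  have h1 : ∀ N, ∑ n ∈ Finset.range N, f n ≤ E.toReal := by
    intro N
    have h2 := sum_prob_le (U := U) (criticalProb U) N
    rw [hf, ← ENNReal.toReal_sum (fun n _ => measure_ne_top _ _)]
    exact ENNReal.toReal_mono hcon h2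
  have h2 : Summable f := summable_of_sum_range_le (fun n => ENNReal.toReal_nonneg) h1
  have h3 : ∀ n : ℕ, 1 ≤ n → 1 / (n : ℝ) ≤ C * f n := by
    intro n hn
    have h4 := hbound n hn
    have h5 : ((1 : ℝ≥0∞)).toReal ≤
        (((C * n : ℕ) : ℝ≥0∞) * bernoulliSites (criticalProb U) (notInf U n 0)).toReal :=
      ENNReal.toReal_mono (ENNReal.mul_ne_top (ENNReal.natCast_ne_top _) (measure_ne_top _ _)) h4
    rw [ENNReal.toReal_mul, ENNReal.toReal_natCast] at h5
    simp only [ENNReal.toReal_one] at h5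
    push_cast at h5
    have hnpos : (0 : ℝ) < n := by exact_mod_cast hn
    rw [div_le_iff₀ hnpos]
    calc (1 : ℝ) ≤ C * n * f n := h5
      _ = C * f n * n := by ring
  have h4 : Summable (fun n : ℕ => 1 / ((n : ℝ))) := by
    rw [← summable_nat_add_iff 1]
    refine Summable.of_nonneg_of_le (fun n => by positivity) (fun n => h3 (n + 1) (by omega)) ?_
    exact ((summable_nat_add_iff 1).2 (h2.mul_left (C : ℝ)))
  exact Real.not_summable_one_div_natCast h4

end Pool.Agent.helper96.Boot
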