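import Pool.Agent.helper96.BootProb

set_option autoImplicit false

open MeasureTheory ProbabilityTheory unitInterval
open scoped ENNReal NNReal

namespace Pool.Agent.helper96.Boot

variable {U : Finset (Finset (ℤ × ℤ))}

lemma evolve_succ_subset (A : Set (ℤ × ℤ)) (t : ℕ) : evolve U A t ⊆ evolve U A (t + 1) :=
  Set.subset_union_left

lemma evolve_mono_time (A : Set (ℤ × ℤ)) {s t : ℕ} (h : s ≤ t) : evolve U A s ⊆ evolve U A t := by
  induction h with
  | refl => exact subset_rfl
  | step _ ih => exact ih.trans (evolve_succ_subset A _)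

lemma mem_evolve_succ {A : Set (ℤ × ℤ)} {t : ℕ} {x : ℤ × ℤ} :
    x ∈ evolve U A (t + 1) ↔ x ∈ evolve U A t ∨ ∃ X ∈ U, ∀ y ∈ X, x + y ∈ evolve U A t := Iff.rfl

lemma exists_not_mem {A : Set (ℤ × ℤ)} {t : ℕ} {x : ℤ × ℤ} (h : x ∉ evolve U A (t + 1))
    {X : Finset (ℤ × ℤ)} (hX : X ∈ U) : ∃ y ∈ X, x + y ∉ evolve U A t := by
  by_contra hcon
  push Not at hcon
  exact h (Or.inr ⟨X, hX, hcon⟩)

/-- the square box of radius `r` around `x` -/
noncomputable def box (x : ℤ × ℤ) (r : ℤ) : Finset (ℤ × ℤ) :=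
  Finset.Icc (x.1 - r) (x.1 + r) ×ˢ Finset.Icc (x.2 - r) (x.2 + r)

lemma mem_box {x z : ℤ × ℤ} {r : ℤ} :
    z ∈ box x r ↔ (x.1 - r ≤ z.1 ∧ z.1 ≤ x.1 + r) ∧ (x.2 - r ≤ z.2 ∧ z.2 ≤ x.2 + r) := by
  simp [box, Finset.mem_product, Finset.mem_Icc]

/-- radius of a family -/
lemma exists_radius (U : Finset (Finset (ℤ × ℤ))) :
    ∃ R : ℕ, 1 ≤ R ∧ ∀ X ∈ U, ∀ y ∈ X, |y.1| ≤ (R : ℤ) ∧ |y.2| ≤ (R : ℤ) := by
  classical
  refine ⟨1 + ∑ y ∈ U.biUnion id, (y.1.natAbs + y.2.natAbs), by omega, ?_⟩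
  intro X hX y hy
  have hy' : y ∈ U.biUnion id := by
    rw [Finset.mem_biUnion]; exact ⟨X, hX, hy⟩
  have h1 : y.1.natAbs + y.2.natAbs ≤ ∑ y ∈ U.biUnion id, (y.1.natAbs + y.2.natAbs) :=
    Finset.single_le_sum (f := fun y : ℤ × ℤ => y.1.natAbs + y.2.natAbs)
      (fun _ _ => Nat.zero_le _) hy'
  generalize ∑ y ∈ U.biUnion id, (y.1.natAbs + y.2.natAbs) = S at h1
  constructor
  · rw [Int.abs_eq_natAbs]; omega
  · rw [Int.abs_eq_natAbs]; omega

/-- whether `x` is infected by time `n` depends only on the box of radius `R n`. -/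
lemma evolve_dep {R : ℕ} (hR : ∀ X ∈ U, ∀ y ∈ X, |y.1| ≤ (R : ℤ) ∧ |y.2| ≤ (R : ℤ))
    (n : ℕ) (x : ℤ × ℤ) (A B : Set (ℤ × ℤ))
    (h : ∀ z ∈ box x (R * n), (z ∈ A ↔ z ∈ B)) : x ∈ evolve U A n ↔ x ∈ evolve U B n := by
  induction n generalizing x with
  | zero =>
    apply h
    rw [mem_box]; simp
  | succ n ih =>
    rw [mem_evolve_succ, mem_evolve_succ]
    have h1 : x ∈ evolve U A n ↔ x ∈ evolve U B n := by
      apply ih
      intro z hz
      apply h
      rw [mem_box] at hz ⊢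
      push_cast
      constructor <;> constructor <;> nlinarith [hz.1.1, hz.1.2, hz.2.1, hz.2.2]
    rw [h1]
    apply or_congr Iff.rfl
    apply exists_congr
    intro X
    apply and_congr_right
    intro hX
    apply forall_congr'
    intro y
    apply forall_congr'
    intro hy
    apply ih
    intro z hz
    apply h
    have h2 := (hR X hX y hy).1
    have h3 := (hR X hX y hy).2
    rw [abs_le] at h2 h3
    rw [mem_box] at hz ⊢
    simp only [Prod.fst_add, Prod.snd_add] at hz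
    push_cast
    constructor <;> constructor <;> nlinarith [hz.1.1, hz.1.2, hz.2.1, hz.2.2, h2.1, h2.2, h3.1, h3.2]

/-- the event that `x` is not infected by time `n` -/
def notInf (U : Finset (Finset (ℤ × ℤ))) (n : ℕ) (x : ℤ × ℤ) : Set (Set (ℤ × ℤ)) :=
  {A | x ∉ evolve U A n}

lemma notInf_dep {R : ℕ} (hR : ∀ X ∈ U, ∀ y ∈ X, |y.1| ≤ (R : ℤ) ∧ |y.2| ≤ (R : ℤ))
    (n : ℕ) (x : ℤ × ℤ) : DepOn (box x (R * n)) (notInf U n x) := by
  intro A B h
  exact not_congr (evolve_dep hR n x A B h)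

lemma evolve_shift (A : Set (ℤ × ℤ)) (x z : ℤ × ℤ) (n : ℕ) :
    z ∈ evolve U {z | z + x ∈ A} n ↔ z + x ∈ evolve U A n := by
  induction n generalizing z with
  | zero => rfl
  | succ n ih =>
    rw [mem_evolve_succ, mem_evolve_succ, ih]
    apply or_congr Iff.rfl
    apply exists_congr
    intro X
    apply and_congr_right
    intro _
    apply forall_congr'
    intro y
    apply forall_congr'
    intro _
    rw [ih]
    have : z + y + x = z + x + y := by ring
    rw [this]

lemma prob_notInf (U : Finset (Finset (ℤ × ℤ))) (p : unitInterval) (n : ℕ) (x : ℤ × ℤ) :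
    bernoulliSites p (notInf U n x) = bernoulliSites p (notInf U n 0) := by
  obtain ⟨R, -, hR⟩ := exists_radius U
  have hmshift : Measurable (fun A : Set (ℤ × ℤ) => {z | z + x ∈ A}) := by
    rw [measurable_set_iff]
    intro a
    exact measurable_set_mem (a + x)
  conv_rhs => rw [← shift_invariant p x]
  rw [Measure.map_apply hmshift (notInf_dep hR n 0).measurableSet]
  congr 1
  ext A
  show x ∉ evolve U A n ↔ (0 : ℤ × ℤ) ∉ evolve U {z | z + x ∈ A} n
  rw [evolve_shift, zero_add]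

/-- linear functional -/
def lin (a b : ℤ) (z : ℤ × ℤ) : ℤ := a * z.1 + b * z.2

lemma lin_add (a b : ℤ) (z w : ℤ × ℤ) : lin a b (z + w) = lin a b z + lin a b w := by
  simp [lin]; ring

/-- The set of possible increments of first passage through level `h`. -/
noncomputable def incr (a b m : ℤ) (R h : ℕ) : Finset (ℤ × ℤ) :=
  (box 0 (R * h)).filter (fun d => (h : ℤ) ≤ lin a b d ∧ lin a b d < h + m)

lemma mem_incr {a b m : ℤ} {R h : ℕ} {d : ℤ × ℤ} :
    d ∈ incr a b m R h ↔ ((-(R * h : ℤ) ≤ d.1 ∧ d.1 ≤ R * h) ∧ (-(R * h : ℤ) ≤ d.2 ∧ d.2 ≤ R * h)) ∧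
      ((h : ℤ) ≤ lin a b d ∧ lin a b d < h + m) := by
  simp [incr, mem_box]

/-- Follow a path of late sites until the functional has increased by at least `r`. -/
lemma passage {R : ℕ} {a b m : ℤ} {X₀ : Finset (ℤ × ℤ)} (hX₀ : X₀ ∈ U)
    (hR : ∀ y ∈ X₀, |y.1| ≤ (R : ℤ) ∧ |y.2| ≤ (R : ℤ))
    (hl : ∀ y ∈ X₀, 1 ≤ lin a b y ∧ lin a b y ≤ m) (hm : 1 ≤ m) (A : Set (ℤ × ℤ)) (t : ℕ) (r : ℕ) :
    ∀ x, x ∉ evolve U A (t + r) → ∃ x', x' ∉ evolve U A t ∧ (x' - x) ∈ incr a b m R r := by
  induction r using Nat.strong_induction_on with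
  | _ r ih =>
    intro x hx
    rcases Nat.eq_zero_or_pos r with hr | hr
    · subst hr
      refine ⟨x, hx, ?_⟩
      rw [mem_incr]
      simp [lin]
      omega
    · obtain ⟨r', rfl⟩ : ∃ r', r = r' + 1 := ⟨r - 1, by omega⟩
      have hx' : x ∉ evolve U A ((t + r') + 1) := hx
      obtain ⟨y, hy, hy'⟩ := exists_not_mem hx' hX₀
      have h1 := hl y hy
      have h2 := (hR y hy).1
      have h3 := (hR y hy).2
      rw [abs_le] at h2 h3
      by_cases hs : ((r' : ℤ) + 1) ≤ lin a b y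
      · refine ⟨x + y, fun h => hy' (evolve_mono_time A (by omega) h), ?_⟩
        rw [mem_incr]
        have e : x + y - x = y := by ring
        rw [e]
        push_cast
        refine ⟨⟨⟨?_, ?_⟩, ?_, ?_⟩, ?_, ?_⟩ <;> nlinarith [h2.1, h2.2, h3.1, h3.2, h1.1, h1.2]
      · push Not at hs
        set s := (lin a b y).toNat with hsdef
        have hs1 : (s : ℤ) = lin a b y := Int.toNat_of_nonneg (by omega)
        have hlt : r' + 1 - s < r' + 1 := by omega
        obtain ⟨x', hx1, hx2⟩ := ih (r' + 1 - s) hlt (x + y)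
          (fun h => hy' (evolve_mono_time A (by omega) h))
        refine ⟨x', hx1, ?_⟩
        rw [mem_incr] at hx2 ⊢
        have e : x' - x = (x' - (x + y)) + y := by ring
        rw [e, lin_add]
        have hc : (((r' + 1 - s : ℕ)) : ℤ) = r' + 1 - s := by omega
        rw [hc] at hx2
        simp only [Prod.fst_add, Prod.snd_add]
        push_cast
        have hs2 : (1 : ℤ) ≤ s := by omega
        have hRnn : (0 : ℤ) ≤ R := by positivity
        have hRs : (R : ℤ) * 1 ≤ R * s := mul_le_mul_of_nonneg_left hs2 hRnn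
        obtain ⟨⟨⟨b1, b2⟩, b3, b4⟩, b5, b6⟩ := hx2
        refine ⟨⟨⟨?_, ?_⟩, ?_, ?_⟩, ?_, ?_⟩ <;> nlinarith [h2.1, h2.2, h3.1, h3.2]

/-- chain events -/
def chain (U : Finset (Finset (ℤ × ℤ))) (D : Finset (ℤ × ℤ)) (n : ℕ) : ℕ → ℤ × ℤ → Set (Set (ℤ × ℤ))
  | 0, x => notInf U n x
  | k + 1, x => notInf U n x ∩ ⋃ d ∈ D, chain U D n k (x + d)

open Classical in
/-- dependency sets of chain events -/
noncomputable def chainDep (D : Finset (ℤ × ℤ)) (r : ℤ) : ℕ → ℤ × ℤ → Finset (ℤ × ℤ)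
  | 0, x => box x r
  | k + 1, x => box x r ∪ D.biUnion (fun d => chainDep D r k (x + d))

lemma chain_dep {R : ℕ} (hR : ∀ X ∈ U, ∀ y ∈ X, |y.1| ≤ (R : ℤ) ∧ |y.2| ≤ (R : ℤ))
    (D : Finset (ℤ × ℤ)) (n k : ℕ) (x : ℤ × ℤ) :
    DepOn (chainDep D (R * n) k x) (chain U D n k x) := by
  classical
  induction k generalizing x with
  | zero => exact notInf_dep hR n x
  | succ k ih =>
    intro A B h
    show (A ∈ notInf U n x ∩ ⋃ d ∈ D, chain U D n k (x + d)) ↔
      (B ∈ notInf U n x ∩ ⋃ d ∈ D, chain U D n k (x + d))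
    rw [Set.mem_inter_iff, Set.mem_inter_iff]
    apply and_congr
    · apply notInf_dep hR n x
      intro z hz
      apply h
      unfold chainDep
      exact Finset.mem_union_left _ hz
    · simp only [Set.mem_iUnion, exists_prop]
      apply exists_congr
      intro d
      apply and_congr_right
      intro hd
      apply ih
      intro z hz
      apply h
      unfold chainDep
      apply Finset.mem_union_right
      rw [Finset.mem_biUnion]
      exact ⟨d, hd, hz⟩

lemma chainDep_lin {a b : ℤ} {D : Finset (ℤ × ℤ)} {r : ℤ}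
    (hD : ∀ d ∈ D, 0 ≤ lin a b d) (k : ℕ) (x z : ℤ × ℤ) (hz : z ∈ chainDep D r k x) :
    lin a b x - (|a| + |b|) * r ≤ lin a b z := by
  classical
  have hbox : ∀ x : ℤ × ℤ, z ∈ box x r → lin a b x - (|a| + |b|) * r ≤ lin a b z := by
    intro x hz
    rw [mem_box] at hz
    obtain ⟨⟨h1, h2⟩, h3, h4⟩ := hz
    unfold lin
    have e1 : a * (x.1 - z.1) ≤ |a| * r := by
      calc a * (x.1 - z.1) ≤ |a * (x.1 - z.1)| := le_abs_self _
        _ = |a| * |x.1 - z.1| := abs_mul _ _
        _ ≤ |a| * r := mul_le_mul_of_nonneg_left (by rw [abs_le]; constructor <;> omega) (abs_nonneg _)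
    have e2 : b * (x.2 - z.2) ≤ |b| * r := by
      calc b * (x.2 - z.2) ≤ |b * (x.2 - z.2)| := le_abs_self _
        _ = |b| * |x.2 - z.2| := abs_mul _ _
        _ ≤ |b| * r := mul_le_mul_of_nonneg_left (by rw [abs_le]; constructor <;> omega) (abs_nonneg _)
    nlinarith
  induction k generalizing x with
  | zero => exact hbox x hz
  | succ k ih =>
    unfold chainDep at hz
    rw [Finset.mem_union, Finset.mem_biUnion] at hz
    rcases hz with hz | ⟨d, hd, hz⟩
    · exact hbox x hz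
    · have h1 := ih (x + d) hz
      rw [lin_add] at h1
      have := hD d hd
      omega

/-- late sites give long chains -/
lemma notInf_subset_chain {R : ℕ} {a b m : ℤ} {X₀ : Finset (ℤ × ℤ)} (hX₀ : X₀ ∈ U)
    (hR : ∀ y ∈ X₀, |y.1| ≤ (R : ℤ) ∧ |y.2| ≤ (R : ℤ))
    (hl : ∀ y ∈ X₀, 1 ≤ lin a b y ∧ lin a b y ≤ m) (hm : 1 ≤ m) (h n k : ℕ) (x : ℤ × ℤ) :
    notInf U (n + k * h) x ⊆ chain U (incr a b m R h) n k x := by
  induction k generalizing x with
  | zero => intro A hA; simpa [chain] using hA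
  | succ k ih =>
    intro A hA
    have hA' : x ∉ evolve U A ((n + k * h) + h) := by
      have e : n + (k + 1) * h = (n + k * h) + h := by ring
      rw [← e]; exact hA
    obtain ⟨x', hx1, hx2⟩ := passage hX₀ hR hl hm A (n + k * h) h x hA'
    refine ⟨fun hh => hA' (evolve_mono_time A (by
      have : 0 ≤ k * h := Nat.zero_le _
      omega) hh), ?_⟩
    rw [Set.mem_iUnion]
    refine ⟨x' - x, ?_⟩
    rw [Set.mem_iUnion]
    refine ⟨hx2, ?_⟩
    have e : x + (x' - x) = x' := by ring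
    rw [e]
    exact ih x' hx1

/-- probability of chains -/
lemma prob_chain_le {R : ℕ} {a b m : ℤ}
    (hRU : ∀ X ∈ U, ∀ y ∈ X, |y.1| ≤ (R : ℤ) ∧ |y.2| ≤ (R : ℤ)) (h n : ℕ)
    (hh : 2 * (|a| + |b|) * (R * n) < h) (p : unitInterval) (k : ℕ) (x : ℤ × ℤ) :
    bernoulliSites p (chain U (incr a b m R h) n k x) ≤
      (((incr a b m R h).card : ℝ≥0∞) * bernoulliSites p (notInf U n 0)) ^ k := by
  induction k generalizing x with
  | zero => simpa using prob_le_one
  | succ k ih =>
    have h1 : chain U (incr a b m R h) n (k + 1) x =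
        ⋃ d ∈ incr a b m R h, notInf U n x ∩ chain U (incr a b m R h) n k (x + d) := by
      show notInf U n x ∩ (⋃ d ∈ incr a b m R h, chain U (incr a b m R h) n k (x + d)) = _
      rw [Set.inter_iUnion₂]
    rw [h1]
    refine (measure_biUnion_finset_le _ _).trans ?_
    have h2 : ∀ d ∈ incr a b m R h,
        bernoulliSites p (notInf U n x ∩ chain U (incr a b m R h) n k (x + d)) ≤
          bernoulliSites p (notInf U n 0) *
          (((incr a b m R h).card : ℝ≥0∞) * bernoulliSites p (notInf U n 0)) ^ k := by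
      intro d hd
      rw [prob_inter p (notInf_dep hRU n x) (chain_dep hRU _ n k (x + d)), prob_notInf]
      · exact mul_le_mul_right (ih (x + d)) _
      · rw [Finset.disjoint_left]
        intro z hz hz'
        have e1 := chainDep_lin (a := a) (b := b) (r := (R * n : ℤ))
          (fun d hd => by
            have := (mem_incr.1 hd).2.1
            have h0 : (0 : ℤ) ≤ h := by positivity
            omega) k (x + d) z hz'
        have e2 := (mem_incr.1 hd).2.1
        rw [lin_add] at e1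
        rw [mem_box] at hz
        obtain ⟨⟨g1, g2⟩, g3, g4⟩ := hz
        have e3 : a * (z.1 - x.1) ≤ |a| * (R * n) := by
          calc a * (z.1 - x.1) ≤ |a * (z.1 - x.1)| := le_abs_self _
            _ = |a| * |z.1 - x.1| := abs_mul _ _
            _ ≤ |a| * (R * n) :=
              mul_le_mul_of_nonneg_left (by rw [abs_le]; constructor <;> linarith) (abs_nonneg _)
        have e4 : b * (z.2 - x.2) ≤ |b| * (R * n) := by
          calc b * (z.2 - x.2) ≤ |b * (z.2 - x.2)| := le_abs_self _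
            _ = |b| * |z.2 - x.2| := abs_mul _ _
            _ ≤ |b| * (R * n) :=
              mul_le_mul_of_nonneg_left (by rw [abs_le]; constructor <;> linarith) (abs_nonneg _)
        unfold lin at *
        nlinarith
    refine (Finset.sum_le_sum h2).trans ?_
    rw [Finset.sum_const, nsmul_eq_mul, pow_succ]
    rw [mul_comm ((((incr a b m R h).card : ℝ≥0∞) * bernoulliSites p (notInf U n 0)) ^ k), mul_assoc]

end Pool.Agent.helper96.Boot
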