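import Pool.Agent.helper96.BootDefs

set_option autoImplicit false

open MeasureTheory ProbabilityTheory unitInterval
open scoped ENNReal NNReal

namespace Pool.Agent.helper96.Boot

instance (p : unitInterval) : IsProbabilityMeasure (bernoulliSites p) := by
  unfold bernoulliSites; infer_instance

/-- An event depends only on the sites in the finite set `S`. -/
def DepOn (S : Finset (ℤ × ℤ)) (E : Set (Set (ℤ × ℤ))) : Prop :=
  ∀ A B : Set (ℤ × ℤ), (∀ x ∈ S, (x ∈ A ↔ x ∈ B)) → (A ∈ E ↔ B ∈ E)

lemma DepOn.mono {S S' : Finset (ℤ × ℤ)} {E : Set (Set (ℤ × ℤ))} (h : DepOn S E) (hS : S ⊆ S') :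
    DepOn S' E := fun A B hAB => h A B (fun x hx => hAB x (hS hx))

lemma DepOn.compl {S : Finset (ℤ × ℤ)} {E : Set (Set (ℤ × ℤ))} (h : DepOn S E) :
    DepOn S Eᶜ := fun A B hAB => not_congr (h A B hAB)

lemma DepOn.inter {S : Finset (ℤ × ℤ)} {E F : Set (Set (ℤ × ℤ))} (h : DepOn S E)
    (h' : DepOn S F) : DepOn S (E ∩ F) :=
  fun A B hAB => and_congr (h A B hAB) (h' A B hAB)

/-- cylinder set -/
def cyl (S B : Finset (ℤ × ℤ)) : Set (Set (ℤ × ℤ)) := {A | ∀ x ∈ S, (x ∈ A ↔ x ∈ B)}

/-- weight of a cylinder -/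
noncomputable def wt (p : unitInterval) (S B : Finset (ℤ × ℤ)) : ℝ≥0 :=
  ∏ x ∈ S, (if x ∈ B then toNNReal p else toNNReal (σ p))

lemma measurableSet_cyl (S B : Finset (ℤ × ℤ)) : MeasurableSet (cyl S B) := by
  have : cyl S B = ⋂ x ∈ S, {A : Set (ℤ × ℤ) | x ∈ A ↔ x ∈ B} := by
    ext A; simp [cyl]
  rw [this]
  refine Finset.measurableSet_biInter _ (fun x _ => ?_)
  by_cases hx : x ∈ B
  · have : {A : Set (ℤ × ℤ) | x ∈ A ↔ x ∈ B} = {A : Set (ℤ × ℤ) | x ∈ A} := by
      ext A; simp [hx]
    rw [this, measurableSet_setOfPred]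
    exact measurable_set_mem x
  · have : {A : Set (ℤ × ℤ) | x ∈ A ↔ x ∈ B} = {A : Set (ℤ × ℤ) | x ∈ A}ᶜ := by
      ext A; simp [hx]
    rw [this]
    refine MeasurableSet.compl ?_
    rw [measurableSet_setOfPred]
    exact measurable_set_mem x

lemma prob_cyl (p : unitInterval) (S B : Finset (ℤ × ℤ)) :
    bernoulliSites p (cyl S B) = (wt p S B : ℝ≥0∞) := by
  unfold bernoulliSites
  rw [setBernoulli_apply']
  have : ((fun q : ℤ × ℤ → Prop => {i | q i}) ⁻¹' (cyl S B))
      = Set.pi (S : Set (ℤ × ℤ)) (fun x => {q : Prop | q ↔ x ∈ B}) := by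
    ext q
    simp [cyl, Set.mem_pi]
  rw [this, Measure.infinitePi_pi]
  · unfold wt
    push_cast
    refine Finset.prod_congr rfl (fun x _ => ?_)
    by_cases hx : x ∈ B
    · simp [hx]
    · simp [hx]
  · intro x _
    exact MeasurableSet.of_discrete

lemma cyl_disjoint {S B B' : Finset (ℤ × ℤ)} (hB : B ⊆ S) (hB' : B' ⊆ S) (h : B ≠ B') :
    Disjoint (cyl S B) (cyl S B') := by
  rw [Set.disjoint_left]
  intro A h1 h2
  apply h
  ext x
  constructor
  · intro hx
    exact ((h2 x (hB hx)).1 ((h1 x (hB hx)).2 hx))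
  · intro hx
    exact ((h1 x (hB' hx)).1 ((h2 x (hB' hx)).2 hx))

open Classical in
/-- restricted configurations in the event -/
noncomputable def pats (S : Finset (ℤ × ℤ)) (E : Set (Set (ℤ × ℤ))) :
    Finset (Finset (ℤ × ℤ)) :=
  S.powerset.filter (fun B => (B : Set (ℤ × ℤ)) ∈ E)

lemma mem_pats {S B : Finset (ℤ × ℤ)} {E : Set (Set (ℤ × ℤ))} :
    B ∈ pats S E ↔ B ⊆ S ∧ (B : Set (ℤ × ℤ)) ∈ E := by
  simp [pats]

open Classical in
lemma dep_eq_union {S : Finset (ℤ × ℤ)} {E : Set (Set (ℤ × ℤ))} (hE : DepOn S E) :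
    E = ⋃ B ∈ pats S E, cyl S B := by
  ext A
  simp only [Set.mem_iUnion, exists_prop]
  constructor
  · intro hA
    refine ⟨S.filter (fun x => x ∈ A), ?_, ?_⟩
    · rw [mem_pats]
      refine ⟨Finset.filter_subset _ _, ?_⟩
      refine (hE A _ ?_).1 hA
      intro x hx
      simp [hx]
    · intro x hx
      simp [hx]
  · rintro ⟨B, hB, hA⟩
    rw [mem_pats] at hB
    exact (hE A B (fun x hx => by simpa using hA x hx)).2 hB.2

lemma DepOn.measurableSet {S : Finset (ℤ × ℤ)} {E : Set (Set (ℤ × ℤ))} (hE : DepOn S E) :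
    MeasurableSet E := by
  rw [dep_eq_union hE]
  exact Finset.measurableSet_biUnion _ (fun B _ => measurableSet_cyl S B)

lemma prob_dep (p : unitInterval) {S : Finset (ℤ × ℤ)} {E : Set (Set (ℤ × ℤ))}
    (hE : DepOn S E) :
    bernoulliSites p E = ((∑ B ∈ pats S E, wt p S B : ℝ≥0) : ℝ≥0∞) := by
  conv_lhs => rw [dep_eq_union hE]
  rw [measure_biUnion_finset]
  · push_cast
    exact Finset.sum_congr rfl (fun B _ => prob_cyl p S B)
  · intro B hB B' hB' hne
    exact cyl_disjoint (mem_pats.1 hB).1 (mem_pats.1 hB').1 hne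
  · intro B _
    exact measurableSet_cyl S B

lemma continuous_prob {S : Finset (ℤ × ℤ)} {E : Set (Set (ℤ × ℤ))} (hE : DepOn S E) :
    Continuous (fun p : unitInterval => bernoulliSites p E) := by
  have : (fun p : unitInterval => bernoulliSites p E)
      = fun p => ((∑ B ∈ pats S E, wt p S B : ℝ≥0) : ℝ≥0∞) := by
    funext p; exact prob_dep p hE
  rw [this]
  refine ENNReal.continuous_coe.comp ?_
  refine continuous_finsetSum _ (fun B _ => ?_)
  unfold wt
  refine continuous_finsetProd _ (fun x _ => ?_)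
  by_cases hx : x ∈ B
  · simp only [hx, if_true]
    fun_prop
  · simp only [hx, if_false]
    fun_prop

open Classical in
lemma prob_inter (p : unitInterval) {S S' : Finset (ℤ × ℤ)} {E F : Set (Set (ℤ × ℤ))}
    (hE : DepOn S E) (hF : DepOn S' F) (hd : Disjoint S S') :
    bernoulliSites p (E ∩ F) = bernoulliSites p E * bernoulliSites p F := by
  have key : E ∩ F = ⋃ q ∈ (pats S E) ×ˢ (pats S' F), cyl (S ∪ S') (q.1 ∪ q.2) := by
    conv_lhs => rw [dep_eq_union hE, dep_eq_union hF]
    ext A
    simp only [Set.mem_inter_iff, Set.mem_iUnion, exists_prop, Finset.mem_product, Prod.exists]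
    constructor
    · rintro ⟨⟨B, hB, hA⟩, ⟨B', hB', hA'⟩⟩
      refine ⟨B, B', ⟨hB, hB'⟩, ?_⟩
      intro x hx
      rw [Finset.mem_union] at hx ⊢
      rcases hx with hx | hx
      · rw [hA x hx]
        constructor
        · exact Or.inl
        · rintro (h | h)
          · exact h
          · exact absurd ((mem_pats.1 hB').1 h) (Finset.disjoint_left.1 hd hx)
      · rw [hA' x hx]
        constructor
        · exact Or.inr
        · rintro (h | h)
          · exact absurd hx (Finset.disjoint_left.1 hd ((mem_pats.1 hB).1 h))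
          · exact h
    · rintro ⟨B, B', ⟨hB, hB'⟩, hA⟩
      refine ⟨⟨B, hB, ?_⟩, ⟨B', hB', ?_⟩⟩
      · intro x hx
        rw [hA x (Finset.mem_union_left _ hx), Finset.mem_union]
        constructor
        · rintro (h | h)
          · exact h
          · exact absurd ((mem_pats.1 hB').1 h) (Finset.disjoint_left.1 hd hx)
        · exact Or.inl
      · intro x hx
        rw [hA x (Finset.mem_union_right _ hx), Finset.mem_union]
        constructor
        · rintro (h | h)
          · exact absurd hx (Finset.disjoint_left.1 hd ((mem_pats.1 hB).1 h))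
          · exact h
        · exact Or.inr
  have hwt : ∀ q ∈ (pats S E) ×ˢ (pats S' F), wt p (S ∪ S') (q.1 ∪ q.2)
      = wt p S q.1 * wt p S' q.2 := by
    rintro ⟨B, B'⟩ hq
    rw [Finset.mem_product] at hq
    obtain ⟨hB, hB'⟩ := hq
    simp only at hB hB' ⊢
    unfold wt
    rw [Finset.prod_union hd]
    congr 1
    · refine Finset.prod_congr rfl (fun x hx => ?_)
      have : x ∉ B' := fun h => Finset.disjoint_left.1 hd hx ((mem_pats.1 hB').1 h)
      simp [this]
    · refine Finset.prod_congr rfl (fun x hx => ?_)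
      have : x ∉ B := fun h => Finset.disjoint_left.1 hd ((mem_pats.1 hB).1 h) hx
      simp [this]
  rw [key, measure_biUnion_finset]
  · rw [prob_dep p hE, prob_dep p hF, ← ENNReal.coe_mul, Finset.sum_mul_sum,
      ← Finset.sum_product']
    push_cast
    refine Finset.sum_congr rfl (fun q hq => ?_)
    rw [prob_cyl, hwt q hq]
    push_cast
    rfl
  · rintro ⟨B, B'⟩ hq ⟨C, C'⟩ hq' hne
    rw [Finset.mem_coe, Finset.mem_product] at hq hq'
    apply cyl_disjoint
    · exact Finset.union_subset_union (mem_pats.1 hq.1).1 (mem_pats.1 hq.2).1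
    · exact Finset.union_subset_union (mem_pats.1 hq'.1).1 (mem_pats.1 hq'.2).1
    · intro h
      apply hne
      simp only at h hq hq'
      have e1 : B = C := by
        have h1 : (B ∪ B') ∩ S = B := by
          rw [Finset.union_inter_distrib_right, Finset.inter_eq_left.2 (mem_pats.1 hq.1).1]
          have : B' ∩ S = ∅ := by
            rw [← Finset.disjoint_iff_inter_eq_empty]
            exact (Finset.disjoint_of_subset_right (mem_pats.1 hq.2).1 hd).symm
          rw [this, Finset.union_empty]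
        have h2 : (C ∪ C') ∩ S = C := by
          rw [Finset.union_inter_distrib_right, Finset.inter_eq_left.2 (mem_pats.1 hq'.1).1]
          have : C' ∩ S = ∅ := by
            rw [← Finset.disjoint_iff_inter_eq_empty]
            exact (Finset.disjoint_of_subset_right (mem_pats.1 hq'.2).1 hd).symm
          rw [this, Finset.union_empty]
        rw [← h1, ← h2, h]
      have e2 : B' = C' := by
        have h1 : (B ∪ B') ∩ S' = B' := by
          rw [Finset.union_inter_distrib_right, Finset.inter_eq_left.2 (mem_pats.1 hq.2).1]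
          have : B ∩ S' = ∅ := by
            rw [← Finset.disjoint_iff_inter_eq_empty]
            exact Finset.disjoint_of_subset_left (mem_pats.1 hq.1).1 hd
          rw [this, Finset.empty_union]
        have h2 : (C ∪ C') ∩ S' = C' := by
          rw [Finset.union_inter_distrib_right, Finset.inter_eq_left.2 (mem_pats.1 hq'.2).1]
          have : C ∩ S' = ∅ := by
            rw [← Finset.disjoint_iff_inter_eq_empty]
            exact Finset.disjoint_of_subset_left (mem_pats.1 hq'.1).1 hd
          rw [this, Finset.empty_union]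
        rw [← h1, ← h2, h]
      rw [e1, e2]
  · intro q _
    exact measurableSet_cyl _ _

/-- translation invariance -/
lemma shift_invariant (p : unitInterval) (x : ℤ × ℤ) :
    (bernoulliSites p).map (fun A : Set (ℤ × ℤ) => {z | z + x ∈ A}) = bernoulliSites p := by
  unfold bernoulliSites
  rw [setBernoulli_eq_map]
  set c : Measure Prop := toNNReal p • Measure.dirac True + toNNReal (σ p) • Measure.dirac False
    with hc
  have hcoin : (fun i : ℤ × ℤ => toNNReal p • Measure.dirac (i ∈ (Set.univ : Set (ℤ × ℤ)))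
      + toNNReal (σ p) • Measure.dirac False) = fun _ => c := by
    funext i; simp [hc]
  rw [hcoin]
  have hprob : IsProbabilityMeasure c := by
    have h1 : IsProbabilityMeasure (toNNReal p • Measure.dirac ((0 : ℤ × ℤ) ∈ (Set.univ : Set (ℤ × ℤ)))
      + toNNReal (σ p) • Measure.dirac False) := inferInstance
    have h2 := congrFun hcoin 0
    rw [← h2]; exact h1
  have hms : Measurable (fun q : ℤ × ℤ → Prop => {i | q i}) := MeasurableEquiv.setOfPred.measurable
  have hmshift : Measurable (fun A : Set (ℤ × ℤ) => {z | z + x ∈ A}) := by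
    rw [measurable_set_iff]
    intro a
    exact measurable_set_mem (a + x)
  rw [Measure.map_map hmshift hms]
  set e : ℤ × ℤ ≃ ℤ × ℤ := (Equiv.addRight x).symm with he
  have h3 := Measure.infinitePi_map_piCongrLeft (fun _ : ℤ × ℤ => c) e
  have h4 : ((fun A : Set (ℤ × ℤ) => {z | z + x ∈ A}) ∘ fun q : ℤ × ℤ → Prop => {i | q i})
      = (fun q : ℤ × ℤ → Prop => {i | q i}) ∘ (MeasurableEquiv.piCongrLeft (fun _ => Prop) e) := by
    funext q
    ext z
    simp only [Function.comp, Set.mem_ofPred_eq]
    have h5 : (MeasurableEquiv.piCongrLeft (fun _ => Prop) e) q z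
        = (MeasurableEquiv.piCongrLeft (fun _ => Prop) e) q (e (z + x)) := by
      congr 1; simp [he]
    rw [h5]
    have h6 := Equiv.piCongrLeft_apply_apply (fun _ : ℤ × ℤ => Prop) e q (z + x)
    rw [MeasurableEquiv.coe_piCongrLeft, h6]
  rw [h4, ← Measure.map_map hms (MeasurableEquiv.measurable _), h3]

end Pool.Agent.helper96.Boot
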