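import Mathlib

set_option autoImplicit false

open scoped Fin.CommRing

namespace Pool.Agent.helper96.Rotor

/-- The five exits N, N, E, S, W. -/
def dir : Fin 5 → ℤ × ℤ := ![(0, 1), (0, 1), (1, 0), (0, -1), (-1, 0)]

def stepF (s : (ℤ × ℤ) × (ℤ × ℤ → Fin 5)) : (ℤ × ℤ) × (ℤ × ℤ → Fin 5) :=
  (s.1 + dir (s.2 s.1 + 1), Function.update s.2 s.1 (s.2 s.1 + 1))

def pos (r₀ : ℤ × ℤ → Fin 5) (n : ℕ) : ℤ × ℤ := (stepF^[n] ((0, 0), r₀)).1

def rot (r₀ : ℤ × ℤ → Fin 5) (n : ℕ) : ℤ × ℤ → Fin 5 := (stepF^[n] ((0, 0), r₀)).2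

/-- number of exits from `z` before time `t` -/
def U (r₀ : ℤ × ℤ → Fin 5) (t : ℕ) (z : ℤ × ℤ) : ℕ :=
  ∑ i ∈ Finset.range t, if pos r₀ i = z then 1 else 0

/-- number of arrivals at `z` before or at time `t` -/
def A (r₀ : ℤ × ℤ → Fin 5) (t : ℕ) (z : ℤ × ℤ) : ℕ :=
  ∑ i ∈ Finset.range t, if pos r₀ (i + 1) = z then 1 else 0

/-- number of exits through exit index `d` among the first `n` exits, with initial rotor `a`. -/
def cnt (a : Fin 5) (n : ℕ) (d : Fin 5) : ℕ :=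
  ∑ j ∈ Finset.range n, if a + 1 + (j : Fin 5) = d then 1 else 0

lemma cnt_zero (a d : Fin 5) : cnt a 0 d = 0 := by simp [cnt]

lemma cnt_succ (a : Fin 5) (n : ℕ) (d : Fin 5) :
    cnt a (n + 1) d = cnt a n d + if a + 1 + (n : Fin 5) = d then 1 else 0 := by
  simp only [cnt, Finset.sum_range_succ]

lemma cnt_mono (a : Fin 5) (d : Fin 5) {m n : ℕ} (h : m ≤ n) : cnt a m d ≤ cnt a n d := by
  unfold cnt
  exact Finset.sum_le_sum_of_subset (Finset.range_mono h)

lemma cnt_five (a d : Fin 5) : cnt a 5 d = 1 := by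
  simp only [cnt, Finset.sum_range_succ, Finset.sum_range_zero]
  revert a d; decide

lemma cnt_add_five (a : Fin 5) (n : ℕ) (d : Fin 5) : cnt a (n + 5) d = cnt a n d + 1 := by
  induction n with
  | zero => simp [cnt_five, cnt_zero]
  | succ n ih =>
    have h1 : n + 1 + 5 = (n + 5) + 1 := by ring
    rw [h1, cnt_succ, ih, cnt_succ]
    have h2 : ((n + 5 : ℕ) : Fin 5) = (n : Fin 5) := by
      push_cast
      exact add_zero _
    rw [h2]
    ring

lemma pos_zero (r₀ : ℤ × ℤ → Fin 5) : pos r₀ 0 = (0, 0) := rfl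

lemma pos_succ (r₀ : ℤ × ℤ → Fin 5) (n : ℕ) :
    pos r₀ (n + 1) = pos r₀ n + dir (rot r₀ n (pos r₀ n) + 1) := by
  unfold pos rot
  rw [Function.iterate_succ_apply']
  rfl

lemma rot_succ (r₀ : ℤ × ℤ → Fin 5) (n : ℕ) :
    rot r₀ (n + 1) = Function.update (rot r₀ n) (pos r₀ n) (rot r₀ n (pos r₀ n) + 1) := by
  unfold pos rot
  rw [Function.iterate_succ_apply']
  rfl

lemma U_succ (r₀ : ℤ × ℤ → Fin 5) (t : ℕ) (z : ℤ × ℤ) :
    U r₀ (t + 1) z = U r₀ t z + if pos r₀ t = z then 1 else 0 := by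
  simp only [U, Finset.sum_range_succ]

lemma A_succ (r₀ : ℤ × ℤ → Fin 5) (t : ℕ) (z : ℤ × ℤ) :
    A r₀ (t + 1) z = A r₀ t z + if pos r₀ (t + 1) = z then 1 else 0 := by
  simp only [A, Finset.sum_range_succ]

lemma rot_eq (r₀ : ℤ × ℤ → Fin 5) (t : ℕ) (z : ℤ × ℤ) :
    rot r₀ t z = r₀ z + (U r₀ t z : Fin 5) := by
  induction t with
  | zero => simp [rot, U]
  | succ t ih =>
    rw [rot_succ, U_succ]
    by_cases h : pos r₀ t = z
    · subst h
      simp [ih, add_assoc]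
    · rw [Function.update_of_ne (Ne.symm h), ih]
      simp [h]

lemma U_add_eq (r₀ : ℤ × ℤ → Fin 5) (t : ℕ) (z : ℤ × ℤ) :
    U r₀ t z + (if pos r₀ t = z then 1 else 0) = (if (0, 0) = z then 1 else 0) + A r₀ t z := by
  induction t with
  | zero =>
    simp only [U, A, Finset.sum_range_zero, pos_zero, zero_add, add_zero]
    congr
  | succ t ih =>
    rw [U_succ, A_succ, ih]
    ring

lemma A_eq (r₀ : ℤ × ℤ → Fin 5) (t : ℕ) (z : ℤ × ℤ) :
    A r₀ t z = ∑ d : Fin 5, cnt (r₀ (z - dir d)) (U r₀ t (z - dir d)) d := by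
  induction t with
  | zero => simp [A, U, cnt_zero]
  | succ t ih =>
    rw [A_succ, ih]
    have key : ∀ d : Fin 5, cnt (r₀ (z - dir d)) (U r₀ (t + 1) (z - dir d)) d
        = cnt (r₀ (z - dir d)) (U r₀ t (z - dir d)) d
          + if (rot r₀ t (pos r₀ t) + 1 = d ∧ pos r₀ t = z - dir d) then 1 else 0 := by
      intro d
      rw [U_succ]
      by_cases h : pos r₀ t = z - dir d
      · rw [if_pos h, cnt_succ, rot_eq, h]
        have : r₀ (z - dir d) + 1 + ((U r₀ t (z - dir d) : ℕ) : Fin 5)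
            = r₀ (z - dir d) + ((U r₀ t (z - dir d) : ℕ) : Fin 5) + 1 := by ring
        rw [this]
        simp
      · simp [h]
    rw [Finset.sum_congr rfl (fun d _ => key d), Finset.sum_add_distrib]
    congr 1
    rw [pos_succ]
    set d₀ := rot r₀ t (pos r₀ t) + 1 with hd₀
    rw [Finset.sum_eq_single d₀]
    · by_cases h : pos r₀ t + dir d₀ = z
      · rw [if_pos h, if_pos]
        exact ⟨rfl, by rw [← h]; simp⟩
      · rw [if_neg h, if_neg]
        rintro ⟨-, h2⟩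
        exact h (by rw [h2]; simp)
    · intro d _ hd
      rw [if_neg]
      rintro ⟨h1, -⟩
      exact hd h1.symm
    · simp

/-- total number of steps -/
lemma sum_U (r₀ : ℤ × ℤ → Fin 5) (t : ℕ) (S : Finset (ℤ × ℤ)) (hS : ∀ i < t, pos r₀ i ∈ S) :
    ∑ z ∈ S, U r₀ t z = t := by
  unfold U
  rw [Finset.sum_comm]
  have : ∀ i ∈ Finset.range t, (∑ z ∈ S, if pos r₀ i = z then 1 else 0) = 1 := by
    intro i hi
    rw [Finset.sum_ite_eq]
    simp [hS i (Finset.mem_range.1 hi)]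
  rw [Finset.sum_congr rfl this]
  simp

/-- Least action principle. -/
lemma least_action (r₀ : ℤ × ℤ → Fin 5) (u : ℤ × ℤ → ℕ)
    (hu : ∀ z : ℤ × ℤ, z ≠ (0, 0) → ∑ d : Fin 5, cnt (r₀ (z - dir d)) (u (z - dir d)) d ≤ u z)
    (t : ℕ) (ht : U r₀ t (0, 0) ≤ u (0, 0)) : ∀ z, U r₀ t z ≤ u z := by
  induction t with
  | zero => intro z; simp [U]
  | succ t ih =>
    intro z
    have h0 : U r₀ t (0, 0) ≤ u (0, 0) := le_trans (by rw [U_succ]; omega) ht
    have ih' := ih h0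
    by_cases hz : z = (0, 0)
    · subst hz; exact ht
    · rw [U_succ]
      by_cases hp : pos r₀ t = z
      · have e := U_add_eq r₀ t z
        rw [if_pos hp, if_neg (Ne.symm hz)] at e
        rw [if_pos hp, e, zero_add, A_eq]
        refine le_trans (Finset.sum_le_sum ?_) (hu z hz)
        intro d _
        exact cnt_mono _ _ (ih' _)
      · rw [if_neg hp]; simpa using ih' z

/-- If there is a finitely supported `u` which is super-balanced away from the origin, then the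
walk visits the origin more than `u (0,0)` times. -/
lemma exists_many_visits (r₀ : ℤ × ℤ → Fin 5) (u : ℤ × ℤ → ℕ) (S : Finset (ℤ × ℤ))
    (hS : ∀ z ∉ S, u z = 0)
    (hu : ∀ z : ℤ × ℤ, z ≠ (0, 0) → ∑ d : Fin 5, cnt (r₀ (z - dir d)) (u (z - dir d)) d ≤ u z) :
    ∃ t, u (0, 0) < U r₀ t (0, 0) := by
  by_contra hcon
  push Not at hcon
  set t := (∑ z ∈ S, u z) + 1 with ht
  have h1 := least_action r₀ u hu t (hcon t)
  have h2 : ∀ i < t, pos r₀ i ∈ S := by
    intro i hi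
    by_contra hi'
    have h3 := least_action r₀ u hu (i + 1) (hcon (i + 1)) (pos r₀ i)
    rw [hS _ hi', U_succ] at h3
    simp at h3
  have h4 := sum_U r₀ t S h2
  have h5 : ∑ z ∈ S, U r₀ t z ≤ ∑ z ∈ S, u z := Finset.sum_le_sum (fun z _ => h1 z)
  omega

/-- If there are such functions with arbitrarily large value at the origin, then the walk returns
infinitely often. -/
lemma infinite_visits (r₀ : ℤ × ℤ → Fin 5)
    (H : ∀ m : ℕ, ∃ (u : ℤ × ℤ → ℕ) (S : Finset (ℤ × ℤ)), (∀ z ∉ S, u z = 0) ∧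
      (∀ z : ℤ × ℤ, z ≠ (0, 0) → ∑ d : Fin 5, cnt (r₀ (z - dir d)) (u (z - dir d)) d ≤ u z) ∧
      m ≤ u (0, 0)) :
    Set.Infinite {n : ℕ | pos r₀ n = (0, 0)} := by
  intro hfin
  obtain ⟨u, S, hS, hu, hm⟩ := H hfin.toFinset.card
  obtain ⟨t, ht⟩ := exists_many_visits r₀ u S hS hu
  have h1 : U r₀ t (0, 0) ≤ hfin.toFinset.card := by
    unfold U
    rw [← Finset.card_filter]
    apply Finset.card_le_card
    intro i hi
    rw [Finset.mem_filter] at hi
    rw [Set.Finite.mem_toFinset]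
    exact hi.2
  omega

end Pool.Agent.helper96.Rotor
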